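import Pool.Agent.H102.VS.MixedDisc

/-! # Selection of cones -/

namespace Pool.Agent.H102.VS

open Matrix Finset

variable {d : ℕ}

/-- homogenisation -/
def hat (x : Fin d → ℝ) : Fin (d + 1) → ℝ := Fin.cons 1 x

@[simp] theorem hat_zero (x : Fin d → ℝ) : hat x 0 = 1 := rfl
@[simp] theorem hat_succ (x : Fin d → ℝ) (a : Fin d) : hat x a.succ = x a := rfl

def Pos (y : Fin (d + 1) → Fin (d + 1) → ℝ) (x : Fin d → ℝ) : Prop :=
  ∀ i, 0 < Matrix.det (Matrix.of y) * Matrix.det ((Matrix.of y).updateRow i (hat x))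

theorem Pos.exists_coeffs {y : Fin (d + 1) → Fin (d + 1) → ℝ} {x : Fin d → ℝ} (h : Pos y x)
    (r : Fin (d + 1) → ℝ) (hr : ∀ i, 0 < r i) (z : Fin (d + 1) → Fin d → ℝ)
    (hy : ∀ i, y i = r i • hat (z i)) :
    ∃ γ : Fin (d + 1) → ℝ, (∀ i, 0 ≤ γ i) ∧ ∑ i, γ i = 1 ∧ ∀ a, x a = ∑ i, γ i * z i a := by
  set D := Matrix.det (Matrix.of y) with hD
  have hD0 : D ≠ 0 := by
    intro h0
    have := h 0
    rw [← hD, h0, zero_mul] at this
    exact lt_irrefl _ this
  set γ : Fin (d + 1) → ℝ := fun i =>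
    (D * Matrix.det ((Matrix.of y).updateRow i (hat x))) * r i / D ^ 2 with hγ
  have hγpos : ∀ i, 0 < γ i := fun i => by
    have h1 := h i
    have h2 := hr i
    simp only [hγ]
    positivity
  have hmul := Matrix.mulVec_cramer (Matrix.of y)ᵀ (hat x)
  rw [Matrix.det_transpose] at hmul
  have hcomb : ∀ a, ∑ i, γ i * hat (z i) a = hat x a := by
    intro a
    have h1 := congrFun hmul a
    simp only [Matrix.mulVec, dotProduct, Matrix.transpose_apply, Matrix.of_apply,
      Matrix.cramer_transpose_apply, Pi.smul_apply, smul_eq_mul] at h1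
    rw [← hD] at h1
    have h2 : ∀ i, γ i * hat (z i) a =
        (y i a * ((Matrix.of y).updateRow i (hat x)).det) / D := by
      intro i
      rw [hy i]
      simp only [hγ, Pi.smul_apply, smul_eq_mul]
      field_simp
    rw [Finset.sum_congr rfl (fun i _ => h2 i), ← Finset.sum_div, h1]
    field_simp
  have hsum : ∑ i, γ i = 1 := by
    have := hcomb 0
    simpa using this
  refine ⟨γ, fun i => (hγpos i).le, hsum, fun a => ?_⟩
  have := hcomb a.succ
  simp only [hat_succ] at this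
  exact this.symm

/-- the local lemma -/
theorem local_cone (y : Fin (d + 1) → Fin (d + 1) → ℝ) (hy : Matrix.det (Matrix.of y) ≠ 0)
    (h0 : ∀ i, 0 ≤ y i 0) :
    ∃ (U : Fin (d + 1) → Set (Fin (d + 1) → ℝ)) (x0 : Fin d → ℝ) (ε : ℝ), 0 < ε ∧
      (∀ i, IsOpen (U i) ∧ y i ∈ U i) ∧
      ∀ y' : Fin (d + 1) → Fin (d + 1) → ℝ, (∀ i, y' i ∈ U i) → ∀ x ∈ Metric.ball x0 ε, Pos y' x := by
  set s0 := ∑ i, y i 0 with hs0
  have hs : 0 < s0 := by
    refine lt_of_le_of_ne (Finset.sum_nonneg fun i _ => h0 i) ?_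
    intro h
    apply hy
    have h1 : ∀ i, y i 0 = 0 := fun i =>
      (Finset.sum_eq_zero_iff_of_nonneg (fun i _ => h0 i)).mp h.symm i (Finset.mem_univ i)
    exact Matrix.det_eq_zero_of_column_eq_zero 0 (fun i => h1 i)
  set x0 : Fin d → ℝ := fun a => s0⁻¹ * ∑ i, y i a.succ with hx0
  have hhat : hat x0 = ∑ j, s0⁻¹ • y j := by
    funext a
    rw [Finset.sum_apply]
    refine Fin.cases ?_ (fun a => ?_) a
    · simp only [hat_zero, Pi.smul_apply, smul_eq_mul]
      rw [← Finset.mul_sum, ← hs0, inv_mul_cancel₀ hs.ne']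
    · simp only [hat_succ, Pi.smul_apply, smul_eq_mul]
      rw [← Finset.mul_sum]
  have hdet : ∀ i, Matrix.det ((Matrix.of y).updateRow i (hat x0)) =
      s0⁻¹ * Matrix.det (Matrix.of y) := by
    intro i
    rw [← Matrix.cramer_transpose_apply, hhat, map_sum, Finset.sum_apply]
    rw [Finset.sum_eq_single i]
    · rw [map_smul]
      have h2 : (Matrix.of y)ᵀ.cramer (y i) = Pi.single i (Matrix.of y).det :=
        Matrix.cramer_transpose_row_self (Matrix.of y) i
      rw [h2]; simp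
    · intro j _ hji
      rw [map_smul]
      have h2 : (Matrix.of y)ᵀ.cramer (y j) = Pi.single j (Matrix.of y).det :=
        Matrix.cramer_transpose_row_self (Matrix.of y) j
      rw [h2]
      simp [hji.symm]
    · simp
  have hP : Pos y x0 := by
    intro i
    rw [hdet i]
    have : 0 < s0⁻¹ := inv_pos.mpr hs
    have h2 : 0 < Matrix.det (Matrix.of y) ^ 2 := by positivity
    nlinarith [mul_pos this h2]
  have hopen : IsOpen {q : (Fin (d + 1) → Fin (d + 1) → ℝ) × (Fin d → ℝ) | Pos q.1 q.2} := by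
    have e : {q : (Fin (d + 1) → Fin (d + 1) → ℝ) × (Fin d → ℝ) | Pos q.1 q.2} =
        ⋂ i, {q | 0 < Matrix.det (Matrix.of q.1) *
          Matrix.det ((Matrix.of q.1).updateRow i (hat q.2))} := by
      ext q; simp [Pos]
    rw [e]
    apply isOpen_iInter_of_finite
    intro i
    apply isOpen_lt continuous_const
    have c1 : Continuous fun q : (Fin (d + 1) → Fin (d + 1) → ℝ) × (Fin d → ℝ) =>
        Matrix.det (Matrix.of q.1) := Continuous.matrix_det continuous_fst
    have c2 : Continuous fun q : (Fin (d + 1) → Fin (d + 1) → ℝ) × (Fin d → ℝ) => hat q.2 := by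
      refine continuous_pi fun a => ?_
      refine Fin.cases ?_ (fun a => ?_) a
      · simp only [hat_zero]; exact continuous_const
      · simp only [hat_succ]; fun_prop
    have c3 : Continuous fun q : (Fin (d + 1) → Fin (d + 1) → ℝ) × (Fin d → ℝ) =>
        Matrix.det ((Matrix.of q.1).updateRow i (hat q.2)) := by
      apply Continuous.matrix_det
      exact Continuous.matrix_updateRow i continuous_fst c2
    exact c1.mul c3
  have hmem : ((y, x0) : (Fin (d + 1) → Fin (d + 1) → ℝ) × (Fin d → ℝ)) ∈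
      {q : (Fin (d + 1) → Fin (d + 1) → ℝ) × (Fin d → ℝ) | Pos q.1 q.2} := hP
  obtain ⟨W, V, hW, hV, hyW, hxV, hWV⟩ := isOpen_prod_iff.mp hopen y x0 hmem
  obtain ⟨U, hU, hUW⟩ := isOpen_pi_iff'.mp hW y hyW
  obtain ⟨ε, hε, hball⟩ := Metric.isOpen_iff.mp hV x0 hxV
  refine ⟨U, x0, ε, hε, hU, fun y' hy' x hx => ?_⟩
  have : ((y', x) : (Fin (d + 1) → Fin (d + 1) → ℝ) × (Fin d → ℝ)) ∈ W ×ˢ V :=
    ⟨hUW (fun i _ => hy' i), hball hx⟩
  exact hWV this

theorem exists_cover (d : ℕ) {η : ℝ} (hη : 0 < η) :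
    ∃ (n : ℕ) (U : Fin n → Fin (d + 1) → Set (Fin (d + 1) → ℝ)) (x0 : Fin n → Fin d → ℝ) (ε : ℝ),
      0 < ε ∧
      (∀ y : Fin (d + 1) → Fin (d + 1) → ℝ, (∀ i, ∑ a, y i a ^ 2 = 1) → (∀ i, 0 ≤ y i 0) →
        η ≤ Matrix.det (Matrix.of y) ^ 2 → ∃ k, ∀ i, y i ∈ U k i) ∧
      (∀ k (y' : Fin (d + 1) → Fin (d + 1) → ℝ), (∀ i, y' i ∈ U k i) →
        ∀ x ∈ Metric.ball (x0 k) ε, Pos y' x) := by
  classical
  let C : Set (Fin (d + 1) → Fin (d + 1) → ℝ) :=
    {y | (∀ i, ∑ a, y i a ^ 2 = 1) ∧ (∀ i, 0 ≤ y i 0) ∧ η ≤ Matrix.det (Matrix.of y) ^ 2}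
  have hC : IsCompact C := by
    apply Metric.isCompact_of_isClosed_isBounded
    · have e : C = (⋂ i, {y | ∑ a, y i a ^ 2 = 1}) ∩ ((⋂ i, {y | 0 ≤ y i 0}) ∩
          {y | η ≤ Matrix.det (Matrix.of y) ^ 2}) := by
        ext y; simp [C]
      rw [e]
      refine (isClosed_iInter fun i => isClosed_eq (by fun_prop) (by fun_prop)).inter
        ((isClosed_iInter fun i => isClosed_le (by fun_prop) (by fun_prop)).inter
          (isClosed_le (by fun_prop) ?_))
      exact (Continuous.matrix_det continuous_id).pow 2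
    · rw [isBounded_iff_forall_norm_le]
      refine ⟨1, fun y hy => ?_⟩
      rw [pi_norm_le_iff_of_nonneg zero_le_one]; intro i
      rw [pi_norm_le_iff_of_nonneg zero_le_one]; intro a
      rw [Real.norm_eq_abs, ← sq_le_one_iff_abs_le_one, ← hy.1 i]
      exact Finset.single_le_sum (f := fun a => y i a ^ 2) (fun _ _ => sq_nonneg _)
        (Finset.mem_univ a)
  have hloc : ∀ y : C, ∃ (U : Fin (d + 1) → Set (Fin (d + 1) → ℝ)) (x0 : Fin d → ℝ) (ε : ℝ),
      0 < ε ∧ (∀ i, IsOpen (U i) ∧ y.1 i ∈ U i) ∧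
      ∀ y' : Fin (d + 1) → Fin (d + 1) → ℝ, (∀ i, y' i ∈ U i) →
        ∀ x ∈ Metric.ball x0 ε, Pos y' x := by
    intro y
    apply local_cone y.1 _ y.2.2.1
    intro h
    have := y.2.2.2
    rw [h] at this
    norm_num at this
    linarith
  choose U x0 ε hε hU hPos using hloc
  obtain ⟨t, ht⟩ := hC.elim_finite_subcover (fun y : C => {y' | ∀ i, y' i ∈ U y i})
    (fun y => by
      have : {y' : Fin (d + 1) → Fin (d + 1) → ℝ | ∀ i, y' i ∈ U y i} = Set.univ.pi (U y) := by
        ext y'; simp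
      rw [this]
      exact isOpen_set_pi Set.finite_univ (fun i _ => (hU y i).1))
    (fun y hy => Set.mem_iUnion.mpr ⟨⟨y, hy⟩, fun i => (hU ⟨y, hy⟩ i).2⟩)
  obtain ⟨ε₀, hε₀, hle⟩ : ∃ ε₀ : ℝ, 0 < ε₀ ∧ ∀ k ∈ t, ε₀ ≤ ε k := by
    clear ht
    induction t using Finset.induction_on with
    | empty => exact ⟨1, one_pos, by simp⟩
    | insert k t _ ih =>
      obtain ⟨ε₁, h1, h2⟩ := ih
      refine ⟨min ε₁ (ε k), lt_min h1 (hε k), ?_⟩
      intro j hj
      rcases Finset.mem_insert.mp hj with rfl | hj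
      · exact min_le_right _ _
      · exact (min_le_left _ _).trans (h2 j hj)
  let f := t.equivFin
  refine ⟨t.card, fun k => U (f.symm k), fun k => x0 (f.symm k), ε₀, hε₀, ?_, ?_⟩
  · intro y h1 h2 h3
    have := ht (show y ∈ C from ⟨h1, h2, h3⟩)
    obtain ⟨k, hk, hyk⟩ := Set.mem_iUnion₂.mp this
    refine ⟨f ⟨k, hk⟩, ?_⟩
    show ∀ i, y i ∈ U (f.symm (f ⟨k, hk⟩)) i
    rw [Equiv.symm_apply_apply]
    exact hyk
  · intro k y' hy' x hx
    apply hPos _ y' hy' x
    exact Metric.ball_subset_ball (hle _ (f.symm k).2) hx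

theorem det_sq_le (y : Fin (d + 1) → Fin (d + 1) → ℝ) (hy : ∀ i, ∑ a, y i a ^ 2 = 1) :
    Matrix.det (Matrix.of y) ^ 2 ≤ ((d + 1).factorial : ℝ) ^ 2 := by
  have habs : ∀ i a, |y i a| ≤ 1 := by
    intro i a
    rw [← sq_le_one_iff_abs_le_one, ← hy i]
    exact Finset.single_le_sum (f := fun a => y i a ^ 2) (fun _ _ => sq_nonneg _)
      (Finset.mem_univ a)
  have h1 : |Matrix.det (Matrix.of y)| ≤ ((d + 1).factorial : ℝ) := by
    rw [det_eq_sum]
    refine (Finset.abs_sum_le_sum_abs _ _).trans ?_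
    have : ∀ σ : Equiv.Perm (Fin (d + 1)),
        |((Equiv.Perm.sign σ : ℤ) : ℝ) * ∏ i, (Matrix.of y) i (σ i)| ≤ 1 := by
      intro σ
      rw [abs_mul, Finset.abs_prod]
      have h2 : |((Equiv.Perm.sign σ : ℤ) : ℝ)| = 1 := by
        rcases Int.units_eq_one_or (Equiv.Perm.sign σ) with h | h <;> rw [h] <;> simp
      rw [h2, one_mul]
      exact Finset.prod_le_one (fun _ _ => abs_nonneg _) (fun i _ => habs i _)
    refine (Finset.sum_le_sum fun σ _ => this σ).trans ?_
    simp [Fintype.card_perm]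
  have h3 := abs_nonneg (Matrix.det (Matrix.of y))
  calc Matrix.det (Matrix.of y) ^ 2 = |Matrix.det (Matrix.of y)| ^ 2 := (sq_abs _).symm
    _ ≤ _ := by gcongr

/-- **Selection of cones**. -/
theorem select (d : ℕ) : ∃ δ : ℝ, 0 < δ ∧ ∃ ε : ℝ, 0 < ε ∧
    ∀ (κ : Fin (d + 1) → Type) [∀ i, Fintype (κ i)] (α : ∀ i, κ i → ℝ)
      (y : ∀ i, κ i → Fin (d + 1) → ℝ), (∀ i q, 0 ≤ α i q) → (∀ i, ∑ q, α i q = 1) →
      (∀ i q, ∑ a, y i q a ^ 2 = 1) → (∀ i q, 0 ≤ y i q 0) →
      (∀ a b, ∑ i, ∑ q, α i q * y i q a * y i q b = if a = b then 1 else 0) →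
      ∃ (U : Fin (d + 1) → Set (Fin (d + 1) → ℝ)) (x0 : Fin d → ℝ),
        (∀ i, δ ≤ ∑ q, (U i).indicator (fun _ => α i q) (y i q)) ∧
        ∀ y' : Fin (d + 1) → Fin (d + 1) → ℝ, (∀ i, y' i ∈ U i) →
          ∀ x ∈ Metric.ball x0 ε, Pos y' x := by
  classical
  obtain ⟨c, hc, hmd⟩ := exists_mdisc_lb (d + 1)
  obtain ⟨n, U, x0, ε, hε, hcov, hPos⟩ := exists_cover d (half_pos hc)
  set H : ℝ := ((d + 1).factorial : ℝ) ^ 2 with hH
  have hHpos : 0 < H := by positivity
  refine ⟨c / (2 * H * (n + 1)), by positivity, ε, hε, ?_⟩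
  intro κ _ α y hα hα1 hy1 hy0 hiso
  set M : Fin (d + 1) → Matrix (Fin (d + 1)) (Fin (d + 1)) ℝ := fun i =>
    Matrix.of fun a b => ∑ q, α i q * y i q a * y i q b with hM
  have hMsd : ∀ i, (M i).PosSemidef := by
    intro i
    have e : M i = ∑ q, α i q • Matrix.vecMulVec (y i q) (star (y i q)) := by
      ext a b
      rw [Matrix.sum_apply]
      simp only [hM, Matrix.of_apply, Matrix.smul_apply, Matrix.vecMulVec_apply, star_trivial,
        smul_eq_mul]
      exact Finset.sum_congr rfl fun q _ => by ring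
    rw [e]
    exact Matrix.posSemidef_sum _ fun q _ =>
      (Matrix.posSemidef_vecMulVec_self_star (y i q)).smul (hα i q)
  have hMtr : ∀ i, (M i).trace = 1 := by
    intro i
    simp only [Matrix.trace, Matrix.diag_apply, hM, Matrix.of_apply]
    rw [Finset.sum_comm, ← hα1 i]
    refine Finset.sum_congr rfl fun q _ => ?_
    have : ∑ a, α i q * y i q a * y i q a = α i q * ∑ a, y i q a ^ 2 := by
      rw [Finset.mul_sum]; exact Finset.sum_congr rfl fun a _ => by ring
    rw [this, hy1, mul_one]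
  have hMsum : ∑ i, M i = 1 := by
    ext a b
    rw [Matrix.sum_apply, Matrix.one_apply, ← hiso a b]
    rfl
  have hlow := hmd M hMsd hMtr hMsum
  rw [mdisc_eq α y M (fun i a b => rfl)] at hlow
  -- total weight of the tuples is one
  have htot : ∑ r : ∀ i, κ i, ∏ i, α i (r i) = 1 := by
    have := Finset.prod_univ_sum (fun i => (Finset.univ : Finset (κ i))) (fun i q => α i q)
    rw [Fintype.piFinset_univ] at this
    rw [← this]
    simp [hα1]
  have hprod0 : ∀ r : ∀ i, κ i, 0 ≤ ∏ i, α i (r i) := fun r =>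
    Finset.prod_nonneg fun i _ => hα i _
  set ν : Fin n → Fin (d + 1) → ℝ := fun k i =>
    ∑ q, (U k i).indicator (fun _ => α i q) (y i q) with hν
  have hind0 : ∀ k i q, 0 ≤ (U k i).indicator (fun _ => α i q) (y i q) := fun k i q =>
    Set.indicator_nonneg (fun _ _ => hα i q) _
  have hν0 : ∀ k i, 0 ≤ ν k i := fun k i => Finset.sum_nonneg fun q _ => hind0 k i q
  have hν1 : ∀ k i, ν k i ≤ 1 := by
    intro k i
    rw [← hα1 i]
    exact Finset.sum_le_sum fun q _ => Set.indicator_le_self' (fun _ _ => hα i q) _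
  -- each tuple
  have hterm : ∀ r : ∀ i, κ i, (∏ i, α i (r i)) *
      (Matrix.det (Matrix.of (fun i => y i (r i)))) ^ 2 ≤
      H * (∑ k, ∏ i, (U k i).indicator (fun _ => α i (r i)) (y i (r i))) +
        (c / 2) * ∏ i, α i (r i) := by
    intro r
    have hS0 : 0 ≤ ∑ k, ∏ i, (U k i).indicator (fun _ => α i (r i)) (y i (r i)) :=
      Finset.sum_nonneg fun k _ => Finset.prod_nonneg fun i _ => hind0 k i _
    by_cases hgood : c / 2 ≤ Matrix.det (Matrix.of (fun i => y i (r i))) ^ 2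
    · obtain ⟨k, hk⟩ := hcov (fun i => y i (r i)) (fun i => hy1 i _) (fun i => hy0 i _) hgood
      have h1 : ∏ i, α i (r i) ≤ ∑ k, ∏ i, (U k i).indicator (fun _ => α i (r i)) (y i (r i)) := by
        have h2 : ∏ i, (U k i).indicator (fun _ => α i (r i)) (y i (r i)) = ∏ i, α i (r i) :=
          Finset.prod_congr rfl fun i _ => by rw [Set.indicator_of_mem (hk i)]
        rw [← h2]
        exact Finset.single_le_sum
          (f := fun k => ∏ i, (U k i).indicator (fun _ => α i (r i)) (y i (r i)))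
          (fun k _ => Finset.prod_nonneg fun i _ => hind0 k i _) (Finset.mem_univ k)
      have h3 := det_sq_le (fun i => y i (r i)) (fun i => hy1 i _)
      rw [← hH] at h3
      have h4 : (∏ i, α i (r i)) * (Matrix.det (Matrix.of (fun i => y i (r i)))) ^ 2 ≤
          (∏ i, α i (r i)) * H := mul_le_mul_of_nonneg_left h3 (hprod0 r)
      have h5 : (∏ i, α i (r i)) * H ≤
          (∑ k, ∏ i, (U k i).indicator (fun _ => α i (r i)) (y i (r i))) * H :=
        mul_le_mul_of_nonneg_right h1 hHpos.le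
      have h6 : 0 ≤ (c / 2) * ∏ i, α i (r i) := mul_nonneg (by positivity) (hprod0 r)
      linarith
    · push Not at hgood
      have h4 : (∏ i, α i (r i)) * (Matrix.det (Matrix.of (fun i => y i (r i)))) ^ 2 ≤
          (∏ i, α i (r i)) * (c / 2) := mul_le_mul_of_nonneg_left hgood.le (hprod0 r)
      have h6 : 0 ≤ H * (∑ k, ∏ i, (U k i).indicator (fun _ => α i (r i)) (y i (r i))) :=
        mul_nonneg hHpos.le hS0
      linarith
  have hsum2 : ∑ r : ∀ i, κ i, ∑ k, ∏ i, (U k i).indicator (fun _ => α i (r i)) (y i (r i))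
      = ∑ k, ∏ i, ν k i := by
    rw [Finset.sum_comm]
    refine Finset.sum_congr rfl fun k _ => ?_
    have := Finset.prod_univ_sum (fun i => (Finset.univ : Finset (κ i)))
      (fun i q => (U k i).indicator (fun _ => α i q) (y i q))
    rw [Fintype.piFinset_univ] at this
    exact this.symm
  have hbig : c / 2 ≤ H * ∑ k, ∏ i, ν k i := by
    have h1 := hlow.trans (Finset.sum_le_sum fun r _ => hterm r)
    rw [Finset.sum_add_distrib, ← Finset.mul_sum, ← Finset.mul_sum, hsum2, htot] at h1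
    linarith
  -- one of the sets is large
  obtain ⟨k, hk⟩ : ∃ k, c / (2 * H * (n + 1)) ≤ ∏ i, ν k i := by
    by_contra hcon
    push Not at hcon
    have h1 : ∑ k, ∏ i, ν k i ≤ n * (c / (2 * H * (n + 1))) := by
      calc ∑ k, ∏ i, ν k i ≤ ∑ k : Fin n, c / (2 * H * (n + 1)) :=
            Finset.sum_le_sum fun k _ => (hcon k).le
        _ = n * (c / (2 * H * (n + 1))) := by simp
    have h2 : H * (n * (c / (2 * H * (n + 1)))) < c / 2 := by
      have : H * (n * (c / (2 * H * (n + 1)))) = (c / 2) * (n / (n + 1)) := by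
        field_simp
      rw [this]
      have h3 : (n : ℝ) / (n + 1) < 1 := by
        rw [div_lt_one (by positivity)]; linarith
      nlinarith
    have h3 : H * ∑ k, ∏ i, ν k i ≤ H * (n * (c / (2 * H * (n + 1)))) :=
      mul_le_mul_of_nonneg_left h1 hHpos.le
    linarith
  refine ⟨U k, x0 k, ?_, hPos k⟩
  intro i
  refine hk.trans ?_
  have : ∏ j, ν k j ≤ ν k i := by
    rw [← Finset.mul_prod_erase _ _ (Finset.mem_univ i)]
    exact mul_le_of_le_one_right (hν0 k i) (Finset.prod_le_one (fun j _ => hν0 k j)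
      (fun j _ => hν1 k j))
  exact this

end Pool.Agent.H102.VS
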