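import Mathlib

/-! # Isotropic position of finitely many simplices under affine maps -/

namespace Pool.Agent.H102.VS

open Matrix Finset

variable {d : ℕ} {κ : Type*} [Fintype κ]

/-- parameter space: `(L, b, s)` -/
abbrev Par (d : ℕ) := (Fin d → Fin d → ℝ) × (Fin d → ℝ) × ℝ

noncomputable def Qf (p : κ → Fin (d + 1) → Fin d → ℝ) (k : κ) (v : Par d) : ℝ :=
  ∑ j, (v.2.2 ^ 2 + ∑ a, ((∑ c, v.1 a c * p k j c) + v.2.1 a) ^ 2)

noncomputable def Df (v : Par d) : ℝ := (Matrix.det (Matrix.of v.1) * v.2.2) ^ 2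

noncomputable def Gf (p : κ → Fin (d + 1) → Fin d → ℝ) (e : κ → ℕ) (N : ℕ) (v : Par d) : ℝ :=
  Df v ^ N / ∏ k, Qf p k v ^ e k

omit [Fintype κ] in
theorem Qf_nonneg (p : κ → Fin (d + 1) → Fin d → ℝ) (k : κ) (v : Par d) : 0 ≤ Qf p k v := by
  unfold Qf; positivity

omit [Fintype κ] in
theorem Qf_pos (p : κ → Fin (d + 1) → Fin d → ℝ)
    (hp : ∀ k, Matrix.det (Matrix.of fun (j a : Fin d) => p k j.succ a - p k 0 a) ≠ 0)
    (k : κ) {v : Par d} (hv : v ≠ 0) : 0 < Qf p k v := by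
  rcases (Qf_nonneg p k v).lt_or_eq with h | h
  · exact h
  exfalso
  apply hv
  have h0 : ∀ j, v.2.2 ^ 2 + ∑ a, ((∑ c, v.1 a c * p k j c) + v.2.1 a) ^ 2 = 0 := by
    intro j
    have := (Finset.sum_eq_zero_iff_of_nonneg (s := Finset.univ)
      (f := fun j => v.2.2 ^ 2 + ∑ a, ((∑ c, v.1 a c * p k j c) + v.2.1 a) ^ 2)
      (fun j _ => by positivity)).mp h.symm
    exact this j (Finset.mem_univ j)
  have hs : v.2.2 = 0 := by
    have h1 := h0 0
    have h2 : 0 ≤ ∑ a, ((∑ c, v.1 a c * p k 0 c) + v.2.1 a) ^ 2 := by positivity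
    nlinarith [sq_nonneg v.2.2]
  have hx : ∀ j a, (∑ c, v.1 a c * p k j c) + v.2.1 a = 0 := by
    intro j a
    have h1 := h0 j
    rw [hs] at h1
    have h2 : ∑ a, ((∑ c, v.1 a c * p k j c) + v.2.1 a) ^ 2 = 0 := by linarith
    have h3 := (Finset.sum_eq_zero_iff_of_nonneg (s := Finset.univ)
      (f := fun a => ((∑ c, v.1 a c * p k j c) + v.2.1 a) ^ 2)
      (fun a _ => sq_nonneg _)).mp h2 a (Finset.mem_univ a)
    exact pow_eq_zero_iff (two_ne_zero) |>.mp h3
  set P : Matrix (Fin d) (Fin d) ℝ := Matrix.of fun (j a : Fin d) => p k j.succ a - p k 0 a with hP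
  have hPL : ∀ a, P.mulVec (v.1 a) = 0 := by
    intro a
    funext j
    simp only [Matrix.mulVec, dotProduct, Matrix.of_apply, Pi.zero_apply, hP]
    have h1 := hx j.succ a
    have h2 := hx 0 a
    have : ∑ c, (p k j.succ c - p k 0 c) * v.1 a c
        = (∑ c, v.1 a c * p k j.succ c) - ∑ c, v.1 a c * p k 0 c := by
      rw [← Finset.sum_sub_distrib]
      exact Finset.sum_congr rfl fun c _ => by ring
    rw [this]; linarith
  have hL : v.1 = 0 := by
    funext a
    exact Matrix.eq_zero_of_mulVec_eq_zero (hp k) (hPL a)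
  have hb : v.2.1 = 0 := by
    funext a
    have := hx 0 a
    rw [hL] at this
    simpa using this
  exact Prod.ext hL (Prod.ext hb hs)

omit [Fintype κ] in
theorem Qf_smul (p : κ → Fin (d + 1) → Fin d → ℝ) (k : κ) (t : ℝ) (v : Par d) :
    Qf p k (t • v) = t ^ 2 * Qf p k v := by
  unfold Qf
  rw [Finset.mul_sum]
  refine Finset.sum_congr rfl fun j _ => ?_
  rw [mul_add, Finset.mul_sum]
  congr 1
  · simp only [Prod.smul_snd, smul_eq_mul]; ring
  · refine Finset.sum_congr rfl fun a _ => ?_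
    have : ∑ c, (t • v).1 a c * p k j c = t * ∑ c, v.1 a c * p k j c := by
      rw [Finset.mul_sum]
      refine Finset.sum_congr rfl fun c _ => ?_
      simp only [Prod.smul_fst, Pi.smul_apply, smul_eq_mul]; ring
    rw [this]
    simp only [Prod.smul_fst, Prod.smul_snd, Pi.smul_apply, smul_eq_mul]; ring

theorem Df_smul (t : ℝ) (v : Par d) : Df (t • v) = (t ^ 2) ^ (d + 1) * Df v := by
  unfold Df
  have : Matrix.of (t • v).1 = t • Matrix.of v.1 := rfl
  rw [this, Matrix.det_smul]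
  simp only [Fintype.card_fin, Prod.smul_snd, smul_eq_mul]
  ring

theorem Gf_smul (p : κ → Fin (d + 1) → Fin d → ℝ) (e : κ → ℕ) (N : ℕ)
    (he : ∑ k, e k = N * (d + 1)) {t : ℝ} (ht : t ≠ 0) (v : Par d) :
    Gf p e N (t • v) = Gf p e N v := by
  unfold Gf
  have h1 : ∏ k, Qf p k (t • v) ^ e k = (t ^ 2) ^ (N * (d + 1)) * ∏ k, Qf p k v ^ e k := by
    rw [← he, ← Finset.prod_pow_eq_pow_sum, ← Finset.prod_mul_distrib]
    exact Finset.prod_congr rfl fun k _ => by rw [Qf_smul, mul_pow]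
  rw [h1, Df_smul, mul_pow, ← pow_mul, mul_comm (d + 1) N]
  have : (t ^ 2) ^ (N * (d + 1)) ≠ 0 := by positivity
  rw [mul_div_mul_left _ _ this]

theorem exists_max (p : κ → Fin (d + 1) → Fin d → ℝ) (e : κ → ℕ) (N : ℕ)
    (he : ∑ k, e k = N * (d + 1))
    (hp : ∀ k, Matrix.det (Matrix.of fun (j a : Fin d) => p k j.succ a - p k 0 a) ≠ 0) :
    ∃ (L : Fin d → Fin d → ℝ) (b : Fin d → ℝ), Matrix.det (Matrix.of L) ≠ 0 ∧
      ∀ (L' : Fin d → Fin d → ℝ) (b' : Fin d → ℝ), Gf p e N (L', b', 1) ≤ Gf p e N (L, b, 1) := by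
  classical
  rcases Nat.eq_zero_or_pos N with hN | hN
  · subst hN
    have he0 : ∀ k, e k = 0 := by
      intro k
      have : ∑ k, e k = 0 := by simpa using he
      exact (Finset.sum_eq_zero_iff.mp this) k (Finset.mem_univ k)
    refine ⟨fun a c => if a = c then 1 else 0, 0, ?_, ?_⟩
    · have : Matrix.of (fun a c : Fin d => if a = c then (1 : ℝ) else 0) = 1 := by
        ext a c; simp [Matrix.one_apply]
      rw [this]; simp
    · intro L' b'
      simp [Gf, he0]
  have hcont : ContinuousOn (Gf p e N) (Metric.sphere (0 : Par d) 1) := by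
    unfold Gf
    apply ContinuousOn.div
    · apply Continuous.continuousOn
      unfold Df
      have : Continuous fun v : Par d => Matrix.det (Matrix.of v.1) :=
        Continuous.matrix_det (continuous_fst)
      fun_prop
    · apply Continuous.continuousOn
      unfold Qf
      fun_prop
    · intro v hv
      have hv0 : v ≠ 0 := by
        rintro rfl
        simp at hv
      exact (Finset.prod_pos fun k _ => pow_pos (Qf_pos p hp k hv0) _).ne'
  have hne : (Metric.sphere (0 : Par d) 1).Nonempty := by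
    refine ⟨((0 : Fin d → Fin d → ℝ), (0 : Fin d → ℝ), (1 : ℝ)), ?_⟩
    simp [Prod.norm_def]
  obtain ⟨v₀, hv₀, hmax⟩ := (isCompact_sphere (0 : Par d) 1).exists_isMaxOn hne hcont
  have hv00 : v₀ ≠ 0 := by
    rintro rfl
    simp at hv₀
  have hmax' : ∀ v : Par d, v ≠ 0 → Gf p e N v ≤ Gf p e N v₀ := by
    intro v hv
    have hn : ‖v‖ ≠ 0 := norm_ne_zero_iff.mpr hv
    have h1 : ‖v‖⁻¹ • v ∈ Metric.sphere (0 : Par d) 1 := by
      rw [mem_sphere_zero_iff_norm, norm_smul, norm_inv, norm_norm, inv_mul_cancel₀ hn]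
    have h2 := hmax h1
    simp only [Set.mem_ofPred_eq] at h2
    rwa [Gf_smul p e N he (inv_ne_zero hn)] at h2
  have hpos : 0 < Gf p e N v₀ := by
    have h1 : ((fun a c : Fin d => if a = c then (1 : ℝ) else 0), (0 : Fin d → ℝ), (1 : ℝ)) ≠
        (0 : Par d) := by
      intro h
      have := congrArg (fun v : Par d => v.2.2) h
      simp at this
    refine lt_of_lt_of_le ?_ (hmax' _ h1)
    unfold Gf
    apply div_pos
    · apply pow_pos
      unfold Df
      have : Matrix.of (fun a c : Fin d => if a = c then (1 : ℝ) else 0) = 1 := by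
        ext a c; simp [Matrix.one_apply]
      rw [this]; simp
    · exact Finset.prod_pos fun k _ => pow_pos (Qf_pos p hp k h1) _
  have hD : Df v₀ ≠ 0 := by
    intro h
    rw [Gf, h, zero_pow hN.ne', zero_div] at hpos
    exact lt_irrefl _ hpos
  have hs : v₀.2.2 ≠ 0 := by
    intro h; apply hD; simp [Df, h]
  have hL : Matrix.det (Matrix.of v₀.1) ≠ 0 := by
    intro h; apply hD; simp [Df, h]
  refine ⟨(v₀.2.2⁻¹ • v₀).1, (v₀.2.2⁻¹ • v₀).2.1, ?_, ?_⟩
  · have : Matrix.of (v₀.2.2⁻¹ • v₀).1 = v₀.2.2⁻¹ • Matrix.of v₀.1 := rfl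
    rw [this, Matrix.det_smul]
    exact mul_ne_zero (pow_ne_zero _ (inv_ne_zero hs)) hL
  · intro L' b'
    have h1 : ((v₀.2.2⁻¹ • v₀).1, (v₀.2.2⁻¹ • v₀).2.1, (1 : ℝ)) = v₀.2.2⁻¹ • v₀ := by
      refine Prod.ext rfl (Prod.ext rfl ?_)
      simp [hs]
    rw [h1, Gf_smul p e N he (inv_ne_zero hs)]
    apply hmax'
    intro h
    have := congrArg (fun v : Par d => v.2.2) h
    simp at this

/-- The points after the map. -/
noncomputable def xpt (L : Fin d → Fin d → ℝ) (b : Fin d → ℝ) (p : Fin d → ℝ) (a : Fin d) : ℝ :=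
  (∑ c, L a c * p c) + b a

theorem first_order (p : κ → Fin (d + 1) → Fin d → ℝ) (e : κ → ℕ) (N : ℕ)
    (hp : ∀ k, Matrix.det (Matrix.of fun (j a : Fin d) => p k j.succ a - p k 0 a) ≠ 0)
    (L : Fin d → Fin d → ℝ) (b : Fin d → ℝ) (hL : Matrix.det (Matrix.of L) ≠ 0)
    (hmax : ∀ (L' : Fin d → Fin d → ℝ) (b' : Fin d → ℝ),
      Gf p e N (L', b', 1) ≤ Gf p e N (L, b, 1)) (u v c : Fin d → ℝ) :
    ∑ k, (e k : ℝ) * ((∑ j, ∑ a, xpt L b (p k j) a *
      ((∑ i, v i * xpt L b (p k j) i) * u a + c a)) / Qf p k (L, b, 1)) =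
      N * ∑ i, v i * u i := by
  classical
  set x : κ → Fin (d + 1) → Fin d → ℝ := fun k j => xpt L b (p k j) with hx
  set τ : ℝ := ∑ i, v i * u i with hτ
  set g : κ → Fin (d + 1) → Fin d → ℝ := fun k j a => (∑ i, v i * x k j i) * u a + c a with hg
  -- the perturbed map
  set Lt : ℝ → Fin d → Fin d → ℝ := fun t a c' => L a c' + t * (u a * ∑ i, v i * L i c') with hLt
  set bt : ℝ → Fin d → ℝ := fun t a => b a + t * ((∑ i, v i * b i) * u a + c a) with hbt
  have hdet : ∀ t, Matrix.det (Matrix.of (Lt t)) = (1 + t * τ) * Matrix.det (Matrix.of L) := by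
    intro t
    have h1 : Matrix.of (Lt t) =
        (1 + Matrix.replicateCol Unit (t • u) * Matrix.replicateRow Unit v) * Matrix.of L := by
      ext a c'
      rw [Matrix.add_mul, Matrix.one_mul, Matrix.add_apply, Matrix.mul_assoc]
      simp only [Matrix.mul_apply, Matrix.replicateCol_apply, Matrix.replicateRow_apply,
        Finset.univ_unique, Finset.sum_singleton, Matrix.of_apply, Pi.smul_apply, smul_eq_mul, hLt]
      ring
    rw [h1, Matrix.det_mul, Matrix.det_one_add_replicateCol_mul_replicateRow]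
    congr 2
    rw [hτ, dotProduct, Finset.mul_sum]
    exact Finset.sum_congr rfl fun i _ => by simp; ring
  have hxt : ∀ t k j a, xpt (Lt t) (bt t) (p k j) a = x k j a + t * g k j a := by
    intro t k j a
    simp only [xpt, hx, hg, hLt, hbt]
    have h1 : ∑ c', (L a c' + t * (u a * ∑ i, v i * L i c')) * p k j c'
        = (∑ c', L a c' * p k j c') + t * (u a * ∑ c', ∑ i, v i * L i c' * p k j c') := by
      rw [Finset.mul_sum, Finset.mul_sum, ← Finset.sum_add_distrib]
      refine Finset.sum_congr rfl fun c' _ => ?_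
      rw [← Finset.sum_mul]; ring
    have h2 : ∑ c', ∑ i, v i * L i c' * p k j c' = ∑ i, v i * ∑ c', L i c' * p k j c' := by
      rw [Finset.sum_comm]
      refine Finset.sum_congr rfl fun i _ => ?_
      rw [Finset.mul_sum]
      exact Finset.sum_congr rfl fun c' _ => by ring
    have h3 : ∑ i, v i * ((∑ c', L i c' * p k j c') + b i)
        = (∑ i, v i * ∑ c', L i c' * p k j c') + ∑ i, v i * b i := by
      rw [← Finset.sum_add_distrib]
      exact Finset.sum_congr rfl fun i _ => by ring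
    rw [h1, h2, h3]; ring
  have hQt : ∀ t k, Qf p k (Lt t, bt t, 1) = Qf p k (L, b, 1) +
      (2 * ∑ j, ∑ a, x k j a * g k j a) * t + (∑ j, ∑ a, g k j a ^ 2) * t ^ 2 := by
    intro t k
    have h1 : Qf p k (Lt t, bt t, 1) = ∑ j, (1 ^ 2 + ∑ a, (x k j a + t * g k j a) ^ 2) := by
      unfold Qf
      refine Finset.sum_congr rfl fun j _ => ?_
      congr 1
      refine Finset.sum_congr rfl fun a _ => ?_
      rw [← hxt t k j a]; rfl
    have h2 : Qf p k (L, b, 1) = ∑ j, (1 ^ 2 + ∑ a, (x k j a) ^ 2) := rfl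
    rw [h1, h2, Finset.mul_sum, Finset.sum_mul, Finset.sum_mul, ← Finset.sum_add_distrib,
      ← Finset.sum_add_distrib]
    refine Finset.sum_congr rfl fun j _ => ?_
    rw [Finset.mul_sum, Finset.sum_mul, Finset.sum_mul, add_assoc, add_assoc, ← add_assoc (∑ a, _ ^ 2),
      ← Finset.sum_add_distrib, ← Finset.sum_add_distrib]
    congr 1
    exact Finset.sum_congr rfl fun a _ => by ring
  have h10 : ∀ (L' : Fin d → Fin d → ℝ) (b' : Fin d → ℝ), ((L', b', (1 : ℝ)) : Par d) ≠ 0 := by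
    intro L' b' h
    have := congrArg (fun v : Par d => v.2.2) h
    simp at this
  have hQpos : ∀ (L' : Fin d → Fin d → ℝ) (b' : Fin d → ℝ) k, 0 < Qf p k (L', b', 1) :=
    fun L' b' k => Qf_pos p hp k (h10 L' b')
  -- the function
  set Λ : ℝ → ℝ := fun t => (∑ k, (e k : ℝ) * Real.log (Qf p k (L, b, 1) +
      (2 * ∑ j, ∑ a, x k j a * g k j a) * t + (∑ j, ∑ a, g k j a ^ 2) * t ^ 2))
      - N * Real.log ((1 + t * τ) ^ 2) with hΛ
  have hlog : ∀ (L' : Fin d → Fin d → ℝ) (b' : Fin d → ℝ), Matrix.det (Matrix.of L') ≠ 0 →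
      Real.log (Gf p e N (L', b', 1)) = N * Real.log (Matrix.det (Matrix.of L') ^ 2)
        - ∑ k, (e k : ℝ) * Real.log (Qf p k (L', b', 1)) := by
    intro L' b' hL'
    unfold Gf
    rw [Real.log_div, Real.log_pow, Real.log_prod]
    · congr 1
      · simp [Df]
      · exact Finset.sum_congr rfl fun k _ => by rw [Real.log_pow]
    · intro k _
      exact (pow_pos (hQpos L' b' k) _).ne'
    · apply pow_ne_zero
      simp only [Df, mul_one]
      exact pow_ne_zero _ hL'
    · exact (Finset.prod_pos fun k _ => pow_pos (hQpos L' b' k) _).ne'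
  have hGpos : ∀ (L' : Fin d → Fin d → ℝ) (b' : Fin d → ℝ), Matrix.det (Matrix.of L') ≠ 0 →
      0 < Gf p e N (L', b', 1) := by
    intro L' b' hL'
    unfold Gf
    apply div_pos
    · apply pow_pos
      unfold Df
      simp only [mul_one]
      positivity
    · exact Finset.prod_pos fun k _ => pow_pos (hQpos L' b' k) _
  have hmin : IsLocalMin Λ 0 := by
    have hev : ∀ᶠ t in nhds (0 : ℝ), 0 < 1 + t * τ := by
      have : ContinuousAt (fun t : ℝ => 1 + t * τ) 0 := by fun_prop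
      apply this.eventually (lt_mem_nhds (by simp))
    refine hev.mono fun t ht => ?_
    have hdt : Matrix.det (Matrix.of (Lt t)) ≠ 0 := by
      rw [hdet t]; exact mul_ne_zero ht.ne' hL
    have h1 := hmax (Lt t) (bt t)
    have h2 := Real.log_le_log (hGpos _ _ hdt) h1
    rw [hlog _ _ hdt, hlog _ _ hL, hdet t, mul_pow, Real.log_mul (by positivity) (by positivity)] at h2
    simp only [hΛ]
    have e0 : ∀ k, Qf p k (L, b, 1) + (2 * ∑ j, ∑ a, x k j a * g k j a) * 0 +
        (∑ j, ∑ a, g k j a ^ 2) * 0 ^ 2 = Qf p k (L, b, 1) := by intro k; ring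
    simp_rw [e0, ← hQt t]
    have e1 : Real.log ((1 + 0 * τ) ^ 2) = 0 := by simp
    rw [e1]
    nlinarith
  have hderiv : HasDerivAt Λ ((∑ k, (e k : ℝ) * ((2 * ∑ j, ∑ a, x k j a * g k j a) /
      Qf p k (L, b, 1))) - N * (2 * τ)) 0 := by
    apply HasDerivAt.sub
    · apply HasDerivAt.fun_sum
      intro k _
      apply HasDerivAt.const_mul
      have hq : HasDerivAt (fun t : ℝ => Qf p k (L, b, 1) +
          (2 * ∑ j, ∑ a, x k j a * g k j a) * t + (∑ j, ∑ a, g k j a ^ 2) * t ^ 2)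
          (2 * ∑ j, ∑ a, x k j a * g k j a) 0 := by
        have h1 : HasDerivAt (fun t : ℝ => Qf p k (L, b, 1) +
          (2 * ∑ j, ∑ a, x k j a * g k j a) * t) ((2 * ∑ j, ∑ a, x k j a * g k j a) * 1) 0 :=
          ((hasDerivAt_id (0 : ℝ)).const_mul (2 * ∑ j, ∑ a, x k j a * g k j a)).const_add _
        have h2 : HasDerivAt (fun t : ℝ => (∑ j, ∑ a, g k j a ^ 2) * t ^ 2)
          ((∑ j, ∑ a, g k j a ^ 2) * ((2 : ℕ) * (0 : ℝ) ^ (2 - 1))) 0 :=
          (hasDerivAt_pow 2 (0 : ℝ)).const_mul _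
        have h3 := h1.add h2
        have e3 : (2 * ∑ j, ∑ a, x k j a * g k j a) * 1 +
            (∑ j, ∑ a, g k j a ^ 2) * ((2 : ℕ) * (0 : ℝ) ^ (2 - 1)) =
            2 * ∑ j, ∑ a, x k j a * g k j a := by norm_num
        rw [e3] at h3
        exact h3
      have e0 : Qf p k (L, b, 1) + (2 * ∑ j, ∑ a, x k j a * g k j a) * 0 +
        (∑ j, ∑ a, g k j a ^ 2) * 0 ^ 2 = Qf p k (L, b, 1) := by ring
      have h4 := hq.log (by rw [e0]; exact (hQpos L b k).ne')
      rw [e0] at h4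
      exact h4
    · apply HasDerivAt.const_mul
      have h1 : HasDerivAt (fun t : ℝ => (1 + t * τ) ^ 2) (2 * τ) 0 := by
        have h2 : HasDerivAt (fun t : ℝ => 1 + t * τ) (1 * τ) 0 :=
          ((hasDerivAt_id (0 : ℝ)).mul_const τ).const_add 1
        have h3 := h2.fun_pow 2
        have e3 : ((2 : ℕ) : ℝ) * (1 + 0 * τ) ^ (2 - 1) * (1 * τ) = 2 * τ := by norm_num
        rw [e3] at h3
        exact h3
      have h5 := h1.log (by norm_num)
      have e5 : 2 * τ / (1 + 0 * τ) ^ 2 = 2 * τ := by norm_num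
      rw [e5] at h5
      exact h5
  have hzero := hmin.hasDerivAt_eq_zero hderiv
  have : ∑ k, (e k : ℝ) * ((2 * ∑ j, ∑ a, x k j a * g k j a) / Qf p k (L, b, 1))
      = 2 * ∑ k, (e k : ℝ) * ((∑ j, ∑ a, x k j a * g k j a) / Qf p k (L, b, 1)) := by
    rw [Finset.mul_sum]
    exact Finset.sum_congr rfl fun k _ => by ring
  rw [this] at hzero
  linarith

/-- **Isotropic position.** -/
theorem isotropic (p : κ → Fin (d + 1) → Fin d → ℝ) (e : κ → ℕ) (N : ℕ)
    (he : ∑ k, e k = N * (d + 1))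
    (hp : ∀ k, Matrix.det (Matrix.of fun (j a : Fin d) => p k j.succ a - p k 0 a) ≠ 0) :
    ∃ (L : Fin d → Fin d → ℝ) (b : Fin d → ℝ), Matrix.det (Matrix.of L) ≠ 0 ∧
      (∀ a c, ∑ k, (e k : ℝ) * ((∑ j, xpt L b (p k j) a * xpt L b (p k j) c) /
        Qf p k (L, b, 1)) = if a = c then (N : ℝ) else 0) ∧
      (∀ a, ∑ k, (e k : ℝ) * ((∑ j, xpt L b (p k j) a) / Qf p k (L, b, 1)) = 0) := by
  classical
  obtain ⟨L, b, hL, hmax⟩ := exists_max p e N he hp
  refine ⟨L, b, hL, ?_, ?_⟩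
  · intro a c
    have h := first_order p e N hp L b hL hmax (Pi.single a 1) (Pi.single c 1) 0
    have h1 : ∀ k j, ∑ a', xpt L b (p k j) a' *
        ((∑ i, (Pi.single c (1 : ℝ) : Fin d → ℝ) i * xpt L b (p k j) i) *
          (Pi.single a (1 : ℝ) : Fin d → ℝ) a' + (0 : Fin d → ℝ) a')
        = xpt L b (p k j) a * xpt L b (p k j) c := by
      intro k j
      have h2 : ∑ i, (Pi.single c (1 : ℝ) : Fin d → ℝ) i * xpt L b (p k j) i = xpt L b (p k j) c := by
        simp [Pi.single_apply]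
      rw [h2]
      simp [Pi.single_apply]
    simp_rw [h1] at h
    rw [h]
    by_cases hac : a = c
    · subst hac; simp [Pi.single_apply]
    · simp [Pi.single_apply, hac]
  · intro a
    have h := first_order p e N hp L b hL hmax 0 0 (Pi.single a 1)
    have h1 : ∀ k j, ∑ a', xpt L b (p k j) a' *
        ((∑ i, (0 : Fin d → ℝ) i * xpt L b (p k j) i) *
          (0 : Fin d → ℝ) a' + (Pi.single a (1 : ℝ) : Fin d → ℝ) a')
        = xpt L b (p k j) a := by
      intro k j
      simp [Pi.single_apply]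
    simp_rw [h1] at h
    rw [h]
    simp

end Pool.Agent.H102.VS
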