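import Mathlib

/-! # Large simplices in convex sets of volume one -/

namespace Pool.Agent.H102.VS

open Matrix MeasureTheory

variable {d : ℕ}

noncomputable def Dt (p : Fin (d + 1) → Fin d → ℝ) : ℝ :=
  Matrix.det (Matrix.of fun (j a : Fin d) => p j.succ a - p 0 a)

theorem exists_simplex (K : Set (Fin d → ℝ)) (hK : Convex ℝ K) (hv : volume K = 1) :
    ∃ p : Fin (d + 1) → Fin d → ℝ, (∀ j, p j ∈ K) ∧ ((1 : ℝ) / 4) ^ d ≤ |Dt p| := by
  classical
  by_contra hcon
  push Not at hcon
  -- interior
  have hint : (interior K).Nonempty := by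
    by_contra hemp
    rw [Set.not_nonempty_iff_eq_empty] at hemp
    have h1 : volume (frontier K) = 0 := hK.addHaar_frontier volume
    have h2 : K ⊆ frontier K := by
      intro x hx
      rw [frontier, hemp, Set.sdiff_empty]
      exact subset_closure hx
    have h3 := measure_mono_null h2 h1
    rw [hv] at h3
    exact one_ne_zero h3
  obtain ⟨x, hx⟩ := hint
  obtain ⟨r, hr, hball⟩ := Metric.isOpen_iff.mp isOpen_interior x hx
  have hball' : Metric.ball x r ⊆ K := hball.trans interior_subset
  let p₀ : Fin (d + 1) → Fin d → ℝ := Fin.cons x (fun j a => x a + if j = a then r / 2 else 0)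
  have hp₀ : ∀ j, p₀ j ∈ K := by
    intro j
    refine Fin.cases ?_ (fun j => ?_) j
    · exact hball' (Metric.mem_ball_self hr)
    · apply hball'
      simp only [p₀, Fin.cons_succ]
      rw [Metric.mem_ball, dist_pi_lt_iff hr]
      intro a
      rw [Real.dist_eq]
      by_cases hja : j = a
      · simp [hja, abs_of_pos (half_pos hr)]; linarith
      · simp [hja, hr]
  have hD₀ : 0 < |Dt p₀| := by
    have : Dt p₀ = (r / 2) ^ d := by
      unfold Dt
      have e : (Matrix.of fun (j a : Fin d) => p₀ j.succ a - p₀ 0 a) =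
          (r / 2) • (1 : Matrix (Fin d) (Fin d) ℝ) := by
        ext j a
        simp only [p₀, Matrix.of_apply, Fin.cons_succ, Fin.cons_zero, Matrix.smul_apply,
          Matrix.one_apply, smul_eq_mul]
        by_cases hja : j = a <;> simp [hja]
      rw [e, Matrix.det_smul]; simp
    rw [this]; positivity
  set S : Set ℝ := {t | ∃ p : Fin (d + 1) → Fin d → ℝ, (∀ j, p j ∈ K) ∧ t = |Dt p|} with hS
  have hSne : S.Nonempty := ⟨_, p₀, hp₀, rfl⟩
  have hSbdd : BddAbove S := ⟨(1 / 4) ^ d, by rintro t ⟨p, hp, rfl⟩; exact (hcon p hp).le⟩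
  have hspos : 0 < sSup S := lt_of_lt_of_le hD₀ (le_csSup hSbdd ⟨p₀, hp₀, rfl⟩)
  obtain ⟨t, ⟨p, hp, rfl⟩, hpt⟩ := exists_lt_of_lt_csSup hSne (half_lt_self hspos)
  set A : Matrix (Fin d) (Fin d) ℝ := Matrix.of fun (j a : Fin d) => p j.succ a - p 0 a with hA
  have hDA : Dt p = A.det := rfl
  have hA0 : 0 < |A.det| := by rw [← hDA]; linarith
  have hAne : A.det ≠ 0 := abs_pos.mp hA0
  -- the set lies in a parallelepiped
  have hsub : (fun z => z + p 0) ⁻¹' K ⊆
      (Matrix.toLin' Aᵀ) '' (Set.Icc (fun _ => (-2 : ℝ)) (fun _ => 2)) := by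
    intro z hz
    have hmul := Matrix.mulVec_cramer Aᵀ z
    rw [Matrix.det_transpose] at hmul
    refine ⟨(A.det)⁻¹ • Matrix.cramer Aᵀ z, ?_, ?_⟩
    · have hbd : ∀ j, |((A.det)⁻¹ • Matrix.cramer Aᵀ z) j| ≤ 2 := by
        intro j
        rw [Pi.smul_apply, smul_eq_mul, Matrix.cramer_transpose_apply, abs_mul, abs_inv]
        have h1 : (A.updateRow j z).det = Dt (Function.update p j.succ (z + p 0)) := by
          unfold Dt
          congr 1
          ext i a
          rw [Matrix.updateRow_apply]
          simp only [Matrix.of_apply]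
          by_cases hij : i = j
          · subst hij
            simp [Function.update_of_ne (Fin.succ_ne_zero _).symm]
          · rw [if_neg hij, Function.update_of_ne (by simpa using hij),
              Function.update_of_ne (Fin.succ_ne_zero _).symm]
            rfl
        have h2 : |(A.updateRow j z).det| ≤ sSup S := by
          rw [h1]
          refine le_csSup hSbdd ⟨_, ?_, rfl⟩
          intro i
          by_cases hij : i = j.succ
          · subst hij; simpa using hz
          · rw [Function.update_of_ne hij]; exact hp i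
        rw [inv_mul_le_iff₀ hA0]
        rw [← hDA] at hA0 ⊢
        linarith
      exact ⟨fun j => (abs_le.mp (hbd j)).1, fun j => (abs_le.mp (hbd j)).2⟩
    · rw [Matrix.toLin'_apply, Matrix.mulVec_smul, hmul, smul_smul, inv_mul_cancel₀ hAne, one_smul]
  have hvol : volume ((fun z => z + p 0) ⁻¹' K) = 1 := by
    rw [measure_preimage_add_right]; exact hv
  have hle := measure_mono (μ := volume) hsub
  rw [hvol, Measure.addHaar_image_linearMap, LinearMap.det_toLin', Matrix.det_transpose,
    Real.volume_Icc_pi] at hle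
  have h3 : (∏ i : Fin d, ENNReal.ofReal ((2 : ℝ) - -2)) = ENNReal.ofReal (4 ^ d) := by
    rw [Finset.prod_const, Finset.card_univ, Fintype.card_fin, ENNReal.ofReal_pow (by norm_num)]
    norm_num
  rw [h3, ← ENNReal.ofReal_mul (abs_nonneg _)] at hle
  have h4 : |A.det| * 4 ^ d < 1 := by
    have h5 := hcon p hp
    rw [hDA] at h5
    calc |A.det| * 4 ^ d < (1 / 4) ^ d * 4 ^ d := by
          apply mul_lt_mul_of_pos_right h5 (by positivity)
      _ = 1 := by rw [← mul_pow]; norm_num
  have h6 := ENNReal.one_le_ofReal.mp hle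
  linarith

end Pool.Agent.H102.VS
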