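import Pool.Agent.H102.VS.Cones
import Pool.Agent.H102.VS.Isotropic
import Pool.Agent.H102.VS.Simplex

/-! # The colourful homogeneous selection theorem with volume, `d + 1` colour classes -/

namespace Pool.Agent.H102.VS

open Matrix Finset MeasureTheory

variable {d : ℕ}

theorem xpt_comb (L : Fin d → Fin d → ℝ) (b : Fin d → ℝ) {n : ℕ} (γ : Fin n → ℝ)
    (hγ : ∑ i, γ i = 1) (z : Fin n → Fin d → ℝ) (a : Fin d) :
    xpt L b (∑ i, γ i • z i) a = ∑ i, γ i * xpt L b (z i) a := by
  unfold xpt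
  simp only [Finset.sum_apply, Pi.smul_apply, smul_eq_mul, mul_add, Finset.sum_add_distrib,
    Finset.mul_sum]
  rw [← Finset.sum_mul, hγ, one_mul]
  congr 1
  rw [Finset.sum_comm]
  exact Finset.sum_congr rfl fun i _ => Finset.sum_congr rfl fun c _ => by ring

theorem xpt_injective (L : Fin d → Fin d → ℝ) (b : Fin d → ℝ)
    (hL : Matrix.det (Matrix.of L) ≠ 0) {x z : Fin d → ℝ} (h : ∀ a, xpt L b x a = xpt L b z a) :
    x = z := by
  have h1 : (Matrix.of L).mulVec (x - z) = 0 := by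
    funext a
    have := h a
    simp only [xpt] at this
    simp only [Matrix.mulVec, dotProduct, Matrix.of_apply, Pi.sub_apply, Pi.zero_apply, mul_sub,
      Finset.sum_sub_distrib]
    linarith
  have := Matrix.eq_zero_of_mulVec_eq_zero hL h1
  exact sub_eq_zero.mp this

theorem Dt_xpt (L : Fin d → Fin d → ℝ) (b : Fin d → ℝ) (p : Fin (d + 1) → Fin d → ℝ) :
    Dt (fun j => xpt L b (p j)) = Dt p * Matrix.det (Matrix.of L) := by
  unfold Dt
  have : (Matrix.of fun (j a : Fin d) => xpt L b (p j.succ) a - xpt L b (p 0) a)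
      = (Matrix.of fun (j a : Fin d) => p j.succ a - p 0 a) * (Matrix.of L)ᵀ := by
    ext j a
    rw [Matrix.mul_apply]
    simp only [Matrix.of_apply, Matrix.transpose_apply, xpt]
    have : ∑ c, (p j.succ c - p 0 c) * L a c = (∑ c, L a c * p j.succ c) - ∑ c, L a c * p 0 c := by
      rw [← Finset.sum_sub_distrib]
      exact Finset.sum_congr rfl fun c _ => by ring
    rw [this]; ring
  rw [this, Matrix.det_mul, Matrix.det_transpose]

theorem abs_Dt_le (p : Fin (d + 1) → Fin d → ℝ) (R : ℝ) (hp : ∀ j a, |p j a| ≤ R) :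
    |Dt p| ≤ (d.factorial : ℝ) * (2 * R) ^ d := by
  unfold Dt
  rw [det_eq_sum]
  refine (Finset.abs_sum_le_sum_abs _ _).trans ?_
  have : ∀ σ : Equiv.Perm (Fin d),
      |((Equiv.Perm.sign σ : ℤ) : ℝ) *
        ∏ i, (Matrix.of fun (j a : Fin d) => p j.succ a - p 0 a) i (σ i)| ≤ (2 * R) ^ d := by
    intro σ
    rw [abs_mul, Finset.abs_prod]
    have h2 : |((Equiv.Perm.sign σ : ℤ) : ℝ)| = 1 := by
      rcases Int.units_eq_one_or (Equiv.Perm.sign σ) with h | h <;> rw [h] <;> simp
    rw [h2, one_mul]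
    calc ∏ i, |(Matrix.of fun (j a : Fin d) => p j.succ a - p 0 a) i (σ i)|
        ≤ ∏ i : Fin d, (2 * R) := by
          apply Finset.prod_le_prod (fun _ _ => abs_nonneg _)
          intro i _
          simp only [Matrix.of_apply]
          calc |p i.succ (σ i) - p 0 (σ i)| ≤ |p i.succ (σ i)| + |p 0 (σ i)| := abs_sub _ _
            _ ≤ 2 * R := by linarith [hp i.succ (σ i), hp 0 (σ i)]
      _ = (2 * R) ^ d := by simp
  refine (Finset.sum_le_sum fun σ _ => this σ).trans ?_
  simp [Fintype.card_perm]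

/-- **Main theorem**: classes of arbitrary sizes, with repetitions. -/
theorem main (d : ℕ) : ∃ c : ℝ, 0 < c ∧ ∃ v : ℝ, 0 < v ∧
    ∀ (m : Fin (d + 1) → ℕ), (∀ i, 0 < m i) → ∀ F : ∀ i, Fin (m i) → Set (Fin d → ℝ),
      (∀ i k, Convex ℝ (F i k) ∧ volume (F i k) = 1) →
      ∃ (G : ∀ i, Finset (Fin (m i))) (E : Set (Fin d → ℝ)),
        (∀ i, c * (m i : ℝ) ≤ ((G i).card : ℝ)) ∧ MeasurableSet E ∧
        ENNReal.ofReal v ≤ volume E ∧
        ∀ k : ∀ i, Fin (m i), (∀ i, k i ∈ G i) → E ⊆ convexHull ℝ (⋃ i, F i (k i)) := by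
  classical
  obtain ⟨δ, hδ, ε, hε, hsel⟩ := select d
  -- bound for the determinant
  set Cd : ℝ := (d.factorial : ℝ) * (2 * ((d : ℝ) + 1)) ^ d * 4 ^ d with hCd
  have hCdpos : 0 < Cd := by positivity
  refine ⟨δ, hδ, (2 * ε) ^ d / Cd, by positivity, ?_⟩
  intro m hm F hF
  have hex : ∀ i k, ∃ p : Fin (d + 1) → Fin d → ℝ, (∀ j, p j ∈ F i k) ∧
      ((1 : ℝ) / 4) ^ d ≤ |Dt p| := fun i k => exists_simplex (F i k) (hF i k).1 (hF i k).2
  choose p hpF hpD using hex
  -- the isotropic position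
  let κ := Σ i, Fin (m i)
  let P : κ → Fin (d + 1) → Fin d → ℝ := fun q => p q.1 q.2
  let N : ℕ := ∏ i, m i
  have hN : 0 < N := Finset.prod_pos fun i _ => hm i
  let e : κ → ℕ := fun q => ∏ i ∈ Finset.univ.erase q.1, m i
  have he' : ∀ i, m i * ∏ i' ∈ Finset.univ.erase i, m i' = N := fun i =>
    Finset.mul_prod_erase _ _ (Finset.mem_univ i)
  have he : ∑ q, e q = N * (d + 1) := by
    rw [Fintype.sum_sigma]
    simp only [e, Finset.sum_const, Finset.card_univ, Fintype.card_fin, smul_eq_mul]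
    rw [Finset.sum_congr rfl (fun i _ => he' i)]
    simp [mul_comm]
  have hP : ∀ q, Matrix.det (Matrix.of fun (j a : Fin d) => P q j.succ a - P q 0 a) ≠ 0 := by
    intro q h
    have h1 := hpD q.1 q.2
    have h2 : Dt (p q.1 q.2) = 0 := h
    rw [h2, abs_zero] at h1
    have : (0 : ℝ) < (1 / 4) ^ d := by positivity
    linarith
  obtain ⟨L, b, hL, hiso2, hiso1⟩ := isotropic P e N he hP
  let x : ∀ i, Fin (m i) → Fin (d + 1) → Fin d → ℝ := fun i k j => xpt L b (p i k j)
  let Q : ∀ i, Fin (m i) → ℝ := fun i k => ∑ j, (1 + ∑ a, x i k j a ^ 2)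
  have hQ : ∀ i k, Qf P ⟨i, k⟩ (L, b, 1) = Q i k := by
    intro i k
    simp only [Qf, Q]
    exact Finset.sum_congr rfl fun j _ => by rw [one_pow]; rfl
  have hS0 : ∀ i k j, 0 ≤ ∑ a, x i k j a ^ 2 := fun i k j => Finset.sum_nonneg fun _ _ => sq_nonneg _
  have hQpos : ∀ i k, 0 < Q i k := fun i k =>
    Finset.sum_pos (fun j _ => by have := hS0 i k j; linarith) Finset.univ_nonempty
  have hew : ∀ i, ((∏ i' ∈ Finset.univ.erase i, m i' : ℕ) : ℝ) = (N : ℝ) * (1 / (m i : ℝ)) := by
    intro i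
    have h1 := he' i
    have h2 : (m i : ℝ) ≠ 0 := by exact_mod_cast (hm i).ne'
    rw [← h1]; push_cast; field_simp
  have hNne : (N : ℝ) ≠ 0 := by exact_mod_cast hN.ne'
  have hI2 : ∀ a c, ∑ i, ∑ k, 1 / (m i : ℝ) * ((∑ j, x i k j a * x i k j c) / Q i k)
      = if a = c then 1 else 0 := by
    intro a c
    have h := hiso2 a c
    rw [Fintype.sum_sigma] at h
    have h2 : ∀ i, ∀ k : Fin (m i), ((e ⟨i, k⟩ : ℕ) : ℝ) *
        ((∑ j, xpt L b (P ⟨i, k⟩ j) a * xpt L b (P ⟨i, k⟩ j) c) / Qf P ⟨i, k⟩ (L, b, 1))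
        = N * (1 / (m i : ℝ) * ((∑ j, x i k j a * x i k j c) / Q i k)) := by
      intro i k
      rw [hQ, hew]; ring
    have h3 : (N : ℝ) * ∑ i, ∑ k, 1 / (m i : ℝ) * ((∑ j, x i k j a * x i k j c) / Q i k)
        = if a = c then (N : ℝ) else 0 := by
      rw [← h, Finset.mul_sum]
      refine Finset.sum_congr rfl fun i _ => ?_
      rw [Finset.mul_sum]
      exact Finset.sum_congr rfl fun k _ => (h2 i k).symm
    split_ifs with hac
    · rw [if_pos hac] at h3
      exact mul_left_cancel₀ hNne (by rw [h3, mul_one])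
    · rw [if_neg hac] at h3
      exact mul_left_cancel₀ hNne (by rw [h3, mul_zero])
  have hI1 : ∀ a, ∑ i, ∑ k, 1 / (m i : ℝ) * ((∑ j, x i k j a) / Q i k) = 0 := by
    intro a
    have h := hiso1 a
    rw [Fintype.sum_sigma] at h
    have h2 : ∀ i, ∀ k : Fin (m i), ((e ⟨i, k⟩ : ℕ) : ℝ) *
        ((∑ j, xpt L b (P ⟨i, k⟩ j) a) / Qf P ⟨i, k⟩ (L, b, 1))
        = N * (1 / (m i : ℝ) * ((∑ j, x i k j a) / Q i k)) := by
      intro i k
      rw [hQ, hew]; ring
    have h3 : (N : ℝ) * ∑ i, ∑ k, 1 / (m i : ℝ) * ((∑ j, x i k j a) / Q i k) = 0 := by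
      rw [← h, Finset.mul_sum]
      refine Finset.sum_congr rfl fun i _ => ?_
      rw [Finset.mul_sum]
      exact Finset.sum_congr rfl fun k _ => (h2 i k).symm
    exact mul_left_cancel₀ hNne (by rw [h3, mul_zero])
  have hsumw : ∑ i : Fin (d + 1), ∑ _k : Fin (m i), 1 / (m i : ℝ) = (d : ℝ) + 1 := by
    have : ∀ i, ∑ _k : Fin (m i), 1 / (m i : ℝ) = 1 := by
      intro i
      have h2 : (m i : ℝ) ≠ 0 := by exact_mod_cast (hm i).ne'
      simp [h2]
    rw [Finset.sum_congr rfl (fun i _ => this i)]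
    simp
  have hI0 : ∑ i, ∑ k, 1 / (m i : ℝ) * (((d : ℝ) + 1) / Q i k) = 1 := by
    have h1 : ∀ i, ∀ k : Fin (m i), 1 / (m i : ℝ) * (((d : ℝ) + 1) / Q i k) = 1 / (m i : ℝ) -
        ∑ a, 1 / (m i : ℝ) * ((∑ j, x i k j a * x i k j a) / Q i k) := by
      intro i k
      rw [← Finset.mul_sum, ← Finset.sum_div]
      have h2 : Q i k = ((d : ℝ) + 1) + ∑ a, ∑ j, x i k j a * x i k j a := by
        simp only [Q, Finset.sum_add_distrib]
        rw [Finset.sum_comm]
        simp [sq]
      have h3 := (hQpos i k).ne'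
      have h4 : ∑ a, ∑ j, x i k j a * x i k j a = Q i k - ((d : ℝ) + 1) := by linarith
      rw [h4, sub_div, div_self h3]
      ring
    simp_rw [h1, Finset.sum_sub_distrib]
    rw [hsumw]
    have h5 : ∑ i, ∑ k, ∑ a, 1 / (m i : ℝ) * ((∑ j, x i k j a * x i k j a) / Q i k) = (d : ℝ) := by
      rw [Finset.sum_congr rfl (fun i _ => Finset.sum_comm)]
      rw [Finset.sum_comm]
      rw [Finset.sum_congr rfl (fun a _ => hI2 a a)]
      simp
    rw [h5]; ring
  -- the determinant of `L` is bounded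
  have hLbd : |Matrix.det (Matrix.of L)| ≤ Cd := by
    obtain ⟨i, k, hik⟩ : ∃ i, ∃ k : Fin (m i), Q i k ≤ ((d : ℝ) + 1) ^ 2 := by
      by_contra hcon
      push Not at hcon
      have hd1 : (0 : ℝ) < (d : ℝ) + 1 := by positivity
      have h1 : ∀ i, ∀ k : Fin (m i), 1 / (m i : ℝ) * (((d : ℝ) + 1) / Q i k) <
          1 / (m i : ℝ) * (1 / ((d : ℝ) + 1)) := by
        intro i k
        have h4 : (0 : ℝ) < (m i : ℝ) := by exact_mod_cast (hm i)
        apply mul_lt_mul_of_pos_left _ (by positivity)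
        rw [div_lt_div_iff₀ (hQpos i k) hd1]
        nlinarith [hcon i k]
      have h2 : ∑ i, ∑ k : Fin (m i), 1 / (m i : ℝ) * (((d : ℝ) + 1) / Q i k) <
          ∑ i, ∑ _k : Fin (m i), 1 / (m i : ℝ) * (1 / ((d : ℝ) + 1)) := by
        apply Finset.sum_lt_sum_of_nonempty Finset.univ_nonempty
        intro i _
        have hne : Nonempty (Fin (m i)) := ⟨⟨0, hm i⟩⟩
        exact Finset.sum_lt_sum_of_nonempty Finset.univ_nonempty fun k _ => h1 i k
      rw [hI0] at h2
      simp_rw [← Finset.sum_mul] at h2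
      rw [hsumw, mul_one_div_cancel hd1.ne'] at h2
      exact lt_irrefl _ h2
    have hxb : ∀ j a, |x i k j a| ≤ (d : ℝ) + 1 := by
      intro j a
      apply abs_le_of_sq_le_sq _ (by positivity)
      calc x i k j a ^ 2 ≤ ∑ a, x i k j a ^ 2 :=
            Finset.single_le_sum (f := fun a => x i k j a ^ 2) (fun _ _ => sq_nonneg _)
              (Finset.mem_univ a)
        _ ≤ 1 + ∑ a, x i k j a ^ 2 := by linarith
        _ ≤ Q i k := Finset.single_le_sum (f := fun j => 1 + ∑ a, x i k j a ^ 2)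
              (fun j _ => by have := hS0 i k j; linarith) (Finset.mem_univ j)
        _ ≤ _ := hik
    have h1 := abs_Dt_le (x i k) ((d : ℝ) + 1) hxb
    have h2 : Dt (x i k) = Dt (p i k) * Matrix.det (Matrix.of L) := Dt_xpt L b (p i k)
    rw [h2, abs_mul] at h1
    have h3 := hpD i k
    have h4 : ((1 : ℝ) / 4) ^ d * |Matrix.det (Matrix.of L)| ≤
        (d.factorial : ℝ) * (2 * ((d : ℝ) + 1)) ^ d :=
      (mul_le_mul_of_nonneg_right h3 (abs_nonneg _)).trans h1
    have h5 : ((1 : ℝ) / 4) ^ d * 4 ^ d = 1 := by rw [← mul_pow]; norm_num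
    calc |Matrix.det (Matrix.of L)| = ((1 : ℝ) / 4) ^ d * |Matrix.det (Matrix.of L)| * 4 ^ d := by
          rw [mul_right_comm, h5, one_mul]
      _ ≤ (d.factorial : ℝ) * (2 * ((d : ℝ) + 1)) ^ d * 4 ^ d :=
          mul_le_mul_of_nonneg_right h4 (by positivity)
      _ = Cd := rfl
  -- the unit vectors
  let S : ∀ i, Fin (m i) → Fin (d + 1) → ℝ := fun i k j => 1 + ∑ a, x i k j a ^ 2
  have hSpos : ∀ i k j, 0 < S i k j := fun i k j => by
    have := hS0 i k j
    simp only [S]; linarith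
  have hQS : ∀ i k, Q i k = ∑ j, S i k j := fun i k => rfl
  let α : ∀ i, (Fin (m i) × Fin (d + 1)) → ℝ := fun i q => 1 / (m i : ℝ) * (S i q.1 q.2 / Q i q.1)
  let y : ∀ i, (Fin (m i) × Fin (d + 1)) → Fin (d + 1) → ℝ := fun i q =>
    (1 / Real.sqrt (S i q.1 q.2)) • hat (x i q.1 q.2)
  have hα0 : ∀ i q, 0 ≤ α i q := by
    intro i q
    have h1 := (hSpos i q.1 q.2).le
    have h2 := (hQpos i q.1).le
    simp only [α]
    positivity
  have hαk : ∀ i k, ∑ j, α i (k, j) = 1 / (m i : ℝ) := by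
    intro i k
    simp only [α]
    rw [← Finset.mul_sum, ← Finset.sum_div, ← hQS, div_self (hQpos i k).ne', mul_one]
  have hα1 : ∀ i, ∑ q, α i q = 1 := by
    intro i
    rw [Fintype.sum_prod_type]
    simp_rw [hαk]
    have h2 : (m i : ℝ) ≠ 0 := by exact_mod_cast (hm i).ne'
    simp [h2]
  have hsq : ∀ i k j, (1 / Real.sqrt (S i k j)) * (1 / Real.sqrt (S i k j)) = 1 / S i k j := by
    intro i k j
    rw [div_mul_div_comm, Real.mul_self_sqrt (hSpos i k j).le, one_mul]
  have hy1 : ∀ i q, ∑ a, y i q a ^ 2 = 1 := by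
    intro i q
    simp only [y, Pi.smul_apply, smul_eq_mul, mul_pow]
    rw [← Finset.mul_sum, Fin.sum_univ_succ]
    simp only [hat_zero, hat_succ, one_pow]
    rw [sq, hsq]
    exact one_div_mul_cancel (hSpos i q.1 q.2).ne'
  have hy0 : ∀ i q, 0 ≤ y i q 0 := by
    intro i q
    simp only [y, Pi.smul_apply, smul_eq_mul, hat_zero]
    positivity
  have hyy : ∀ i, ∀ k : Fin (m i), ∀ j a b', α i (k, j) * y i (k, j) a * y i (k, j) b' =
      1 / (m i : ℝ) * (hat (x i k j) a * hat (x i k j) b' / Q i k) := by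
    intro i k j a b'
    simp only [α, y, Pi.smul_apply, smul_eq_mul]
    have h1 := hsq i k j
    have h2 := (hSpos i k j).ne'
    calc 1 / (m i : ℝ) * (S i k j / Q i k) * (1 / Real.sqrt (S i k j) * hat (x i k j) a) *
          (1 / Real.sqrt (S i k j) * hat (x i k j) b')
        = 1 / (m i : ℝ) * (S i k j / Q i k) * (1 / Real.sqrt (S i k j) *
          (1 / Real.sqrt (S i k j))) * (hat (x i k j) a * hat (x i k j) b') := by ring
      _ = _ := by
        rw [h1]
        field_simp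
  have hiso : ∀ a b', ∑ i, ∑ q, α i q * y i q a * y i q b' = if a = b' then 1 else 0 := by
    have hgen : ∀ a b', ∑ i, ∑ q, α i q * y i q a * y i q b' =
        ∑ i, ∑ k, 1 / (m i : ℝ) * ((∑ j, hat (x i k j) a * hat (x i k j) b') / Q i k) := by
      intro a b'
      refine Finset.sum_congr rfl fun i _ => ?_
      rw [Fintype.sum_prod_type]
      refine Finset.sum_congr rfl fun k _ => ?_
      simp_rw [hyy]
      rw [← Finset.mul_sum, Finset.sum_div]
    intro a b'
    rw [hgen]
    refine Fin.cases ?_ (fun a => ?_) a <;> refine Fin.cases ?_ (fun b' => ?_) b'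
    · simp only [hat_zero, if_true]
      refine Eq.trans ?_ hI0
      refine Finset.sum_congr rfl fun i _ => Finset.sum_congr rfl fun k _ => ?_
      simp
    · rw [if_neg (Fin.succ_ne_zero _).symm]
      simp only [hat_zero, hat_succ, one_mul]
      exact hI1 b'
    · rw [if_neg (Fin.succ_ne_zero _)]
      simp only [hat_zero, hat_succ, mul_one]
      exact hI1 a
    · simp only [hat_succ, Fin.succ_inj]
      exact hI2 a b'
  obtain ⟨U, x0, hU, hPos⟩ := hsel (fun i => Fin (m i) × Fin (d + 1)) α y hα0 hα1 hy1 hy0 hiso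
  -- the subfamilies
  let G : ∀ i, Finset (Fin (m i)) := fun i => Finset.univ.filter fun k => ∃ j, y i (k, j) ∈ U i
  let T : (Fin d → ℝ) → (Fin d → ℝ) := fun z => xpt L b z
  have hTcont : Continuous T := by
    refine continuous_pi fun a => ?_
    simp only [T, xpt]
    fun_prop
  refine ⟨G, T ⁻¹' Metric.ball x0 ε, ?_, ?_, ?_, ?_⟩
  · intro i
    have h1 := hU i
    have h2 : ∑ q, (U i).indicator (fun _ => α i q) (y i q) ≤ ((G i).card : ℝ) * (1 / (m i : ℝ)) := by
      rw [Fintype.sum_prod_type]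
      have h3 : ∀ k : Fin (m i), ∑ j, (U i).indicator (fun _ => α i (k, j)) (y i (k, j)) ≤
          if k ∈ G i then 1 / (m i : ℝ) else 0 := by
        intro k
        split_ifs with hk
        · rw [← hαk i k]
          exact Finset.sum_le_sum fun j _ => Set.indicator_le_self' (fun _ _ => hα0 i _) _
        · apply le_of_eq
          apply Finset.sum_eq_zero
          intro j _
          apply Set.indicator_of_notMem
          intro hj
          apply hk
          simp only [G, Finset.mem_filter, Finset.mem_univ, true_and]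
          exact ⟨j, hj⟩
      refine (Finset.sum_le_sum fun k _ => h3 k).trans ?_
      rw [Finset.sum_ite_mem, Finset.univ_inter]
      simp
    have h4 : (0 : ℝ) < (m i : ℝ) := by exact_mod_cast (hm i)
    have h5 := h1.trans h2
    rw [mul_one_div, le_div_iff₀ h4] at h5
    exact h5
  · exact hTcont.measurable measurableSet_ball
  · -- volume
    have hpre : T ⁻¹' Metric.ball x0 ε =
        (Matrix.toLin' (Matrix.of L)) ⁻¹' ((fun z => z + b) ⁻¹' Metric.ball x0 ε) := by
      ext z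
      simp only [Set.mem_preimage, T]
      have : (Matrix.toLin' (Matrix.of L)) z + b = xpt L b z := by
        funext a
        simp [Matrix.mulVec, dotProduct, xpt]
      rw [this]
    have hdetL : LinearMap.det (Matrix.toLin' (Matrix.of L)) ≠ 0 := by
      rw [LinearMap.det_toLin']; exact hL
    rw [hpre, Measure.addHaar_preimage_linearMap _ hdetL, measure_preimage_add_right,
      Real.volume_pi_ball _ hε, ← ENNReal.ofReal_mul (abs_nonneg _), LinearMap.det_toLin']
    apply ENNReal.ofReal_le_ofReal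
    rw [abs_inv, Fintype.card_fin, div_eq_inv_mul]
    apply mul_le_mul_of_nonneg_right _ (by positivity)
    exact inv_anti₀ (abs_pos.mpr hL) hLbd
  · intro k hk z hz
    have hj : ∀ i, ∃ j, y i (k i, j) ∈ U i := by
      intro i
      have := hk i
      simp only [G, Finset.mem_filter, Finset.mem_univ, true_and] at this
      exact this
    choose j hj using hj
    have hPz := hPos (fun i => y i (k i, j i)) hj (T z) hz
    obtain ⟨γ, hγ0, hγ1, hγ⟩ := hPz.exists_coeffs (fun i => 1 / Real.sqrt (S i (k i) (j i)))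
      (fun i => by
        have := hSpos i (k i) (j i)
        positivity) (fun i => x i (k i) (j i)) (fun i => rfl)
    have hz' : z = ∑ i, γ i • p i (k i) (j i) := by
      apply xpt_injective L b hL
      intro a
      rw [xpt_comb L b γ hγ1]
      exact hγ a
    rw [hz']
    refine (convex_convexHull ℝ _).sum_mem (fun i _ => hγ0 i) hγ1 fun i _ => ?_
    apply subset_convexHull
    exact Set.mem_iUnion.mpr ⟨i, hpF i (k i) (j i)⟩

end Pool.Agent.H102.VS
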