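import Pool.Agent.H102.VS.Rado

/-! # Mixed discriminants of doubly stochastic tuples are bounded below -/

namespace Pool.Agent.H102.VS

open Matrix Equiv
open scoped MatrixOrder

variable {m : ℕ}

/-- (`m!` times) the mixed discriminant. -/
noncomputable def mdisc (M : Fin m → Matrix (Fin m) (Fin m) ℝ) : ℝ :=
  ∑ σ : Perm (Fin m), ∑ τ : Perm (Fin m),
    ((Perm.sign σ : ℤ) : ℝ) * ((Perm.sign τ : ℤ) : ℝ) * ∏ i, M i (σ i) (τ i)

theorem det_eq_sum (A : Matrix (Fin m) (Fin m) ℝ) :
    A.det = ∑ σ : Perm (Fin m), ((Perm.sign σ : ℤ) : ℝ) * ∏ i, A i (σ i) := by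
  rw [← Matrix.det_transpose, Matrix.det_apply']
  rfl

theorem mdisc_eq {κ : Fin m → Type*} [∀ i, Fintype (κ i)]
    (α : ∀ i, κ i → ℝ) (y : ∀ i, κ i → (Fin m → ℝ)) (M : Fin m → Matrix (Fin m) (Fin m) ℝ)
    (hM : ∀ i a b, M i a b = ∑ k, α i k * y i k a * y i k b) :
    mdisc M = ∑ k : ∀ i, κ i, (∏ i, α i (k i)) *
      (Matrix.det (Matrix.of (fun i => y i (k i)))) ^ 2 := by
  classical
  have h1 : ∀ σ τ : Perm (Fin m), ∏ i, M i (σ i) (τ i)
      = ∑ k : ∀ i, κ i, ∏ i, (α i (k i) * y i (k i) (σ i) * y i (k i) (τ i)) := by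
    intro σ τ
    simp_rw [hM]
    rw [Finset.prod_univ_sum, Fintype.piFinset_univ]
  unfold mdisc
  simp_rw [h1, Finset.mul_sum]
  have h2 : ∀ k : ∀ i, κ i, (∏ i, α i (k i)) *
      (Matrix.det (Matrix.of (fun i => y i (k i)))) ^ 2
      = ∑ σ : Perm (Fin m), ∑ τ : Perm (Fin m), ((Perm.sign σ : ℤ) : ℝ) *
        ((Perm.sign τ : ℤ) : ℝ) * ∏ i, (α i (k i) * y i (k i) (σ i) * y i (k i) (τ i)) := by
    intro k
    rw [sq, det_eq_sum, Finset.sum_mul_sum, Finset.mul_sum]
    refine Finset.sum_congr rfl fun σ _ => ?_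
    rw [Finset.mul_sum]
    refine Finset.sum_congr rfl fun τ _ => ?_
    simp only [Finset.prod_mul_distrib, Matrix.of_apply]
    ring
  simp_rw [h2]
  rw [Finset.sum_comm' (s := Finset.univ) (t := fun _ => Finset.univ) (t' := Finset.univ)
    (s' := fun _ => Finset.univ) (by simp)]
  rw [Finset.sum_congr rfl (fun τ _ => Finset.sum_comm)]
  rw [Finset.sum_comm]
  refine Finset.sum_congr rfl fun k _ => ?_
  rw [Finset.sum_comm]

/-- positivity -/
theorem mdisc_pos (B : Fin m → Fin m → Fin m → ℝ)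
    (h1 : ∀ i, ∑ k, ∑ a, B i k a ^ 2 = 1)
    (h2 : ∀ a b, ∑ i, ∑ k, B i k a * B i k b = if a = b then 1 else 0) :
    0 < mdisc (fun i => Matrix.of (fun a b => ∑ k, B i k a * B i k b)) := by
  classical
  let y : Fin m → Fin m → EuclideanSpace ℝ (Fin m) := fun i k => WithLp.toLp 2 (B i k)
  let V : Fin m → Submodule ℝ (EuclideanSpace ℝ (Fin m)) := fun i =>
    Submodule.span ℝ (Set.range (y i))
  have hinner : ∀ i k (e : EuclideanSpace ℝ (Fin m)), inner ℝ (y i k) e = ∑ a, B i k a * e a := by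
    intro i k e
    simp only [PiLp.inner_apply, y]
    refine Finset.sum_congr rfl fun a _ => ?_
    simp [mul_comm]
  have hquad : ∀ e : EuclideanSpace ℝ (Fin m), ∑ i, ∑ k, (inner ℝ (y i k) e) ^ 2 = ‖e‖ ^ 2 := by
    intro e
    have : ∀ i k, (inner ℝ (y i k) e) ^ 2 = ∑ a, ∑ b, (B i k a * B i k b) * (e a * e b) := by
      intro i k
      rw [hinner, sq, Finset.sum_mul_sum]
      refine Finset.sum_congr rfl fun a _ => Finset.sum_congr rfl fun b _ => ?_
      ring
    simp_rw [this]
    have e2 : ∑ i, ∑ k, ∑ a, ∑ b, (B i k a * B i k b) * (e a * e b)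
        = ∑ a, ∑ b, (∑ i, ∑ k, B i k a * B i k b) * (e a * e b) := by
      simp_rw [Finset.sum_mul]
      rw [Finset.sum_congr rfl (fun i _ => Finset.sum_comm)]
      rw [Finset.sum_comm]
      refine Finset.sum_congr rfl fun a _ => ?_
      rw [Finset.sum_congr rfl (fun i _ => Finset.sum_comm)]
      rw [Finset.sum_comm]
    rw [e2]
    simp_rw [h2]
    rw [EuclideanSpace.norm_sq_eq]
    refine Finset.sum_congr rfl fun a _ => ?_
    simp [Finset.sum_ite_eq, sq]
  obtain ⟨v, hv, hvi⟩ := rado V (by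
    intro S
    let W := S.sup V
    let bW := stdOrthonormalBasis ℝ W
    have hmemW : ∀ i ∈ S, ∀ k, y i k ∈ W := by
      intro i hi k
      exact (Finset.le_sup (f := V) hi) (Submodule.subset_span ⟨k, rfl⟩)
    have hS : ∀ i ∈ S, (1 : ℝ) = ∑ j, ∑ k, (inner ℝ (y i k) (bW j : EuclideanSpace ℝ (Fin m))) ^ 2 := by
      intro i hi
      rw [Finset.sum_comm]
      rw [← h1 i]
      refine Finset.sum_congr rfl fun k _ => ?_
      have h3 := bW.sum_sq_norm_inner_left ⟨y i k, hmemW i hi k⟩
      have h4 : ‖(⟨y i k, hmemW i hi k⟩ : W)‖ ^ 2 = ∑ a, B i k a ^ 2 := by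
        rw [Submodule.coe_norm, EuclideanSpace.norm_sq_eq]
        simp [y]
      rw [h4] at h3
      rw [← h3]
      refine Finset.sum_congr rfl fun j _ => ?_
      rw [Submodule.coe_inner, Real.norm_eq_abs, sq_abs]
    have hcard : (S.card : ℝ) ≤ (Module.finrank ℝ W : ℝ) := by
      calc (S.card : ℝ) = ∑ i ∈ S, (1 : ℝ) := by simp
        _ = ∑ i ∈ S, ∑ j, ∑ k, (inner ℝ (y i k) (bW j : EuclideanSpace ℝ (Fin m))) ^ 2 :=
            Finset.sum_congr rfl hS
        _ ≤ ∑ i, ∑ j, ∑ k, (inner ℝ (y i k) (bW j : EuclideanSpace ℝ (Fin m))) ^ 2 := by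
            apply Finset.sum_le_sum_of_subset_of_nonneg (Finset.subset_univ S)
            intro i _ _
            positivity
        _ = ∑ j, ∑ i, ∑ k, (inner ℝ (y i k) (bW j : EuclideanSpace ℝ (Fin m))) ^ 2 :=
            Finset.sum_comm
        _ = ∑ j : Fin (Module.finrank ℝ W), (1 : ℝ) := by
            refine Finset.sum_congr rfl fun j _ => ?_
            rw [hquad]
            have : ‖(bW j : EuclideanSpace ℝ (Fin m))‖ = 1 := by
              rw [← Submodule.coe_norm]; exact bW.orthonormal.1 j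
            rw [this]; norm_num
        _ = (Module.finrank ℝ W : ℝ) := by simp
    exact_mod_cast hcard)
  have hex : ∀ i, ∃ c : Fin m → ℝ, ∑ k, c k • y i k = v i := by
    intro i
    exact (Submodule.mem_span_range_iff_exists_fun ℝ).mp (hv i)
  choose c hc using hex
  have hdet : Matrix.det (Matrix.of (fun i => (WithLp.ofLp (v i) : Fin m → ℝ))) ≠ 0 := by
    have hv' : LinearIndependent ℝ (fun i => (WithLp.ofLp (v i) : Fin m → ℝ)) := by
      have := hvi.map' (WithLp.linearEquiv 2 ℝ (Fin m → ℝ)).toLinearMap (LinearEquiv.ker _)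
      exact this
    have := (Matrix.linearIndependent_rows_iff_isUnit (K := ℝ)
      (A := Matrix.of (fun i => (WithLp.ofLp (v i) : Fin m → ℝ)))).mp hv'
    exact ((Matrix.isUnit_iff_isUnit_det _).mp this).ne_zero
  have hexp : Matrix.det (Matrix.of (fun i => (WithLp.ofLp (v i) : Fin m → ℝ)))
      = ∑ r : Fin m → Fin m, (∏ i, c i (r i)) * Matrix.det (Matrix.of (fun i => B i (r i))) := by
    have hvv : (fun i => (WithLp.ofLp (v i) : Fin m → ℝ)) = fun i => ∑ k, c i k • B i k := by
      funext i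
      rw [← hc i]
      ext a
      simp [y, Finset.sum_apply]
    rw [hvv]
    have h5 := MultilinearMap.map_sum
      (Matrix.detRowAlternating (R := ℝ) (n := Fin m)).toMultilinearMap
      (fun (i : Fin m) (k : Fin m) => c i k • B i k)
    have h6 : ∀ r : Fin m → Fin m,
        (Matrix.detRowAlternating (R := ℝ) (n := Fin m)).toMultilinearMap
          (fun i => c i (r i) • B i (r i)) = (∏ i, c i (r i)) *
          Matrix.det (Matrix.of (fun i => B i (r i))) := by
      intro r
      rw [MultilinearMap.map_smul_univ]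
      rfl
    rw [Finset.sum_congr rfl (fun r _ => h6 r)] at h5
    exact h5
  have hr : ∃ r : Fin m → Fin m, Matrix.det (Matrix.of (fun i => B i (r i))) ≠ 0 := by
    by_contra hcon
    push Not at hcon
    apply hdet
    rw [hexp]
    exact Finset.sum_eq_zero fun r _ => by rw [hcon r, mul_zero]
  obtain ⟨r, hr⟩ := hr
  rw [mdisc_eq (κ := fun _ => Fin m) (fun _ _ => 1) (fun i k => B i k) _ (by intro i a b; simp)]
  simp only [Finset.prod_const_one, one_mul]
  have hpos : 0 < (Matrix.det (Matrix.of (fun i => B i (r i)))) ^ 2 := by positivity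
  exact lt_of_lt_of_le hpos (Finset.single_le_sum
    (f := fun k : Fin m → Fin m => (Matrix.det (Matrix.of (fun i => B i (k i)))) ^ 2)
    (fun k _ => sq_nonneg _) (Finset.mem_univ r))

/-- A lower bound for the mixed discriminants of doubly stochastic tuples. -/
theorem exists_mdisc_lb (m : ℕ) : ∃ c : ℝ, 0 < c ∧
    ∀ M : Fin m → Matrix (Fin m) (Fin m) ℝ, (∀ i, (M i).PosSemidef) →
      (∀ i, (M i).trace = 1) → (∑ i, M i = 1) → c ≤ mdisc M := by
  classical
  let C : Set (Fin m → Fin m → Fin m → ℝ) :=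
    {B | (∀ i, ∑ k, ∑ a, B i k a ^ 2 = 1) ∧
      ∀ a b, ∑ i, ∑ k, B i k a * B i k b = if a = b then 1 else 0}
  let F : (Fin m → Fin m → Fin m → ℝ) → ℝ := fun B =>
    mdisc (fun i => Matrix.of (fun a b => ∑ k, B i k a * B i k b))
  have hF : Continuous F := by
    simp only [F, mdisc, Matrix.of_apply]
    fun_prop
  have hC : IsCompact C := by
    apply Metric.isCompact_of_isClosed_isBounded
    · have e : C = (⋂ i, {B | ∑ k, ∑ a, B i k a ^ 2 = 1}) ∩
          ⋂ a, ⋂ b, {B | ∑ i, ∑ k, B i k a * B i k b = if a = b then 1 else 0} := by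
        ext B; simp [C]
      rw [e]
      apply IsClosed.inter
      · exact isClosed_iInter fun i => isClosed_eq (by fun_prop) (by fun_prop)
      · exact isClosed_iInter fun a => isClosed_iInter fun b =>
          isClosed_eq (by fun_prop) (by fun_prop)
    · rw [isBounded_iff_forall_norm_le]
      refine ⟨1, fun B hB => ?_⟩
      rw [pi_norm_le_iff_of_nonneg zero_le_one]; intro i
      rw [pi_norm_le_iff_of_nonneg zero_le_one]; intro k
      rw [pi_norm_le_iff_of_nonneg zero_le_one]; intro a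
      rw [Real.norm_eq_abs, ← sq_le_one_iff_abs_le_one]
      calc B i k a ^ 2 ≤ ∑ a, B i k a ^ 2 :=
            Finset.single_le_sum (f := fun a => B i k a ^ 2) (fun _ _ => sq_nonneg _)
              (Finset.mem_univ a)
        _ ≤ ∑ k, ∑ a, B i k a ^ 2 :=
            Finset.single_le_sum (f := fun k => ∑ a, B i k a ^ 2)
              (fun _ _ => Finset.sum_nonneg fun _ _ => sq_nonneg _) (Finset.mem_univ k)
        _ = 1 := hB.1 i
  have key : ∃ c : ℝ, 0 < c ∧ ∀ B ∈ C, c ≤ F B := by
    rcases C.eq_empty_or_nonempty with he | hne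
    · exact ⟨1, one_pos, fun B hB => by rw [he] at hB; exact absurd hB (Set.notMem_empty B)⟩
    · obtain ⟨B₀, hB₀, hmin⟩ := hC.exists_isMinOn hne hF.continuousOn
      exact ⟨F B₀, mdisc_pos B₀ hB₀.1 hB₀.2, fun B hB => hmin hB⟩
  obtain ⟨c, hc, hcB⟩ := key
  refine ⟨c, hc, fun M hM htr hsum => ?_⟩
  have hex : ∀ i, ∃ B : Matrix (Fin m) (Fin m) ℝ, M i = B.conjTranspose * B := fun i => by
    obtain ⟨B, hB⟩ := CStarAlgebra.nonneg_iff_eq_star_mul_self.mp (hM i).nonneg
    exact ⟨B, hB⟩
  choose B hB using hex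
  have hentry : ∀ i a b, M i a b = ∑ k, B i k a * B i k b := by
    intro i a b
    conv_lhs => rw [hB i]
    simp [Matrix.mul_apply]
  have hFB : F (fun i k a => B i k a) = mdisc M := by
    simp only [F]
    congr 1
    funext i
    ext a b
    rw [hentry]; rfl
  rw [← hFB]
  apply hcB
  constructor
  · intro i
    rw [← htr i]
    simp only [Matrix.trace, Matrix.diag_apply]
    simp_rw [hentry]
    rw [Finset.sum_comm]
    refine Finset.sum_congr rfl fun k _ => Finset.sum_congr rfl fun a _ => sq _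
  · intro a b
    have := congrFun (congrFun hsum a) b
    rw [Matrix.sum_apply] at this
    simp_rw [hentry] at this
    rw [this, Matrix.one_apply]

end Pool.Agent.H102.VS
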