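import Mathlib

/-! # Rado's theorem for subspaces (independent transversals) -/

namespace Pool.Agent.H102.VS

open Submodule Module

variable {E : Type*} [AddCommGroup E] [Module ℝ E] [FiniteDimensional ℝ E]
variable {ι : Type*} [DecidableEq ι]

theorem rado_aux (T : Finset ι) : ∀ (U : Submodule ℝ E) (V : ι → Submodule ℝ E),
    (∀ S ⊆ T, finrank ℝ U + S.card ≤ finrank ℝ ↥(U ⊔ S.sup V)) →
    ∃ v : ι → E, (∀ i ∈ T, v i ∈ V i) ∧
      finrank ℝ U + T.card ≤ finrank ℝ ↥(U ⊔ span ℝ (v '' (T : Set ι))) := by
  classical
  induction T using Finset.induction_on with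
  | empty =>
    intro U V _
    refine ⟨fun _ => 0, by simp, ?_⟩
    rw [Finset.card_empty, add_zero]
    exact Submodule.finrank_mono le_sup_left
  | insert i T hi ih =>
    intro U V h
    -- tight sets
    let 𝒮 := T.powerset.filter (fun S => finrank ℝ ↥(U ⊔ S.sup V) = finrank ℝ U + S.card)
    let P : Finset (Submodule ℝ (V i)) := 𝒮.image (fun S => (U ⊔ S.sup V).comap (V i).subtype)
    have hP : ⊤ ∉ P := by
      intro hmem
      obtain ⟨S, hS, hS2⟩ := Finset.mem_image.mp hmem
      obtain ⟨hST, htight⟩ := Finset.mem_filter.mp hS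
      have hST := Finset.mem_powerset.mp hST
      have hle : V i ≤ U ⊔ S.sup V := by
        intro x hx
        have : (⟨x, hx⟩ : V i) ∈ (U ⊔ S.sup V).comap (V i).subtype := by
          rw [hS2]; trivial
        simpa using this
      have h1 := h (insert i S) (Finset.insert_subset_insert i hST)
      rw [Finset.sup_insert, Finset.card_insert_of_notMem (fun hh => hi (hST hh))] at h1
      have h2 : U ⊔ (V i ⊔ S.sup V) = U ⊔ S.sup V := by
        apply le_antisymm
        · exact sup_le le_sup_left (sup_le hle le_sup_right)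
        · exact sup_le le_sup_left (le_sup_of_le_right le_sup_right)
      rw [h2, htight] at h1
      omega
    have hne := Subspace.biUnion_ne_univ_of_top_notMem hP
    obtain ⟨x, hx⟩ := (Set.ne_univ_iff_exists_notMem _).mp hne
    have hx' : ∀ S ⊆ T, finrank ℝ ↥(U ⊔ S.sup V) = finrank ℝ U + S.card →
        (x : E) ∉ U ⊔ S.sup V := by
      intro S hS ht hxm
      apply hx
      refine Set.mem_iUnion₂.mpr ⟨(U ⊔ S.sup V).comap (V i).subtype, ?_, ?_⟩
      · exact Finset.mem_image_of_mem _ (Finset.mem_filter.mpr ⟨Finset.mem_powerset.mpr hS, ht⟩)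
      · simpa using hxm
    have hxU : (x : E) ∉ U := by
      have h0 : U ⊔ (∅ : Finset ι).sup V = U := by rw [Finset.sup_empty, sup_bot_eq]
      have := hx' ∅ (Finset.empty_subset _) (by rw [h0]; simp)
      rwa [h0] at this
    set U' := U ⊔ span ℝ {(x : E)} with hU'
    have hU'le : finrank ℝ U' ≤ finrank ℝ U + 1 := by
      refine (Submodule.finrank_add_le_finrank_add_finrank _ _).trans ?_
      have := finrank_span_le_card (R := ℝ) ({(x : E)} : Set E)
      simp only [Set.toFinset_singleton, Finset.card_singleton] at this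
      omega
    have hstep : ∀ W : Submodule ℝ E, (x : E) ∉ W →
        finrank ℝ W + 1 ≤ finrank ℝ ↥(W ⊔ span ℝ {(x : E)}) := by
      intro W hW
      have hlt : W < W ⊔ span ℝ {(x : E)} := by
        refine lt_of_le_of_ne le_sup_left ?_
        intro heq
        apply hW
        rw [heq]
        exact (le_sup_right : span ℝ {(x : E)} ≤ _) (mem_span_singleton_self _)
      have := Submodule.finrank_lt_finrank_of_lt hlt
      omega
    obtain ⟨v, hv, hv2⟩ := ih U' V (by
      intro S hS
      have heq : U' ⊔ S.sup V = (U ⊔ S.sup V) ⊔ span ℝ {(x : E)} := by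
        rw [hU']; rw [sup_right_comm]
      rw [heq]
      have h0 := h S (hS.trans (Finset.subset_insert i T))
      by_cases ht : finrank ℝ ↥(U ⊔ S.sup V) = finrank ℝ U + S.card
      · have := hstep _ (hx' S hS ht)
        omega
      · have h3 : finrank ℝ ↥(U ⊔ S.sup V) ≤ finrank ℝ ↥((U ⊔ S.sup V) ⊔ span ℝ {(x : E)}) :=
          Submodule.finrank_mono le_sup_left
        omega)
    refine ⟨Function.update v i x, ?_, ?_⟩
    · intro j hj
      by_cases hji : j = i
      · subst hji; simp
      · rw [Function.update_of_ne hji]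
        exact hv j (Finset.mem_of_mem_insert_of_ne hj hji)
    · have himg : (Function.update v i (x : E)) '' ((insert i T : Finset ι) : Set ι)
          = {(x : E)} ∪ v '' (T : Set ι) := by
        rw [Finset.coe_insert, Set.image_insert_eq]
        simp only [Function.update_self]
        rw [Set.singleton_union]
        congr 1
        apply Set.image_congr
        intro j hj
        have : j ≠ i := fun hh => hi (hh ▸ hj)
        rw [Function.update_of_ne this]
      rw [himg, span_union, ← sup_assoc, Finset.card_insert_of_notMem hi]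
      have h4 := hstep U hxU
      rw [← hU'] at h4 ⊢
      omega

/-- **Rado's theorem** for subspaces of a real vector space. -/
theorem rado [Fintype ι] (V : ι → Submodule ℝ E)
    (h : ∀ S : Finset ι, S.card ≤ finrank ℝ ↥(S.sup V)) :
    ∃ v : ι → E, (∀ i, v i ∈ V i) ∧ LinearIndependent ℝ v := by
  obtain ⟨v, hv, hv2⟩ := rado_aux (Finset.univ : Finset ι) (⊥ : Submodule ℝ E) V (by
    intro S _
    rw [bot_sup_eq, finrank_bot, zero_add]
    exact h S)
  refine ⟨v, fun i => hv i (Finset.mem_univ i), ?_⟩
  rw [linearIndependent_iff_card_le_finrank_span]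
  rw [bot_sup_eq, finrank_bot, zero_add, Finset.coe_univ, Set.image_univ] at hv2
  exact hv2

end Pool.Agent.H102.VS
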